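import Pool.Agent.Q43.FS.Fa

/-!
# The commutators, and the structure theorem
-/

set_option autoImplicit false
set_option linter.unusedSectionVars false

namespace Pool.Agent.Q43.FS

open Module Matrix Pool.Agent.H204R3.CM Pool.Agent.H204R3.SP Pool.Agent.H204R3.GP
  Pool.Agent.W516.MTD Pool.Agent.W516.FT Pool.Agent.Q43.HL

noncomputable section

/-- The commutators of the automorphisms of the homology which commute with the algebra. -/
def ComF {H : Type} [AddCommGroup H] [Module ℚ H] (F : Set (Module.End ℚ H)) : Set (H →ₗ[ℚ] H) :=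
  {P | ∃ g h : H ≃ₗ[ℚ] H, (∀ z ∈ F, ∀ v, g (z v) = z (g v)) ∧ (∀ z ∈ F, ∀ v, h (z v) = z (h v)) ∧
    P = g.toLinearMap ∘ₗ h.toLinearMap ∘ₗ g.symm.toLinearMap ∘ₗ h.symm.toLinearMap}

variable {n : ℕ} {H T : Type} [AddCommGroup H] [Module ℚ H] [AddCommGroup T] [Module ℂ T]
  (per : H →+ T) (b : Basis (Fin n) ℚ H) (b' : Basis (Fin n) ℝ T) (hb : ∀ i, b' i = per (b i))
  {ω₀ : H →ₗ[ℚ] H →ₗ[ℚ] ℚ} (hR : IsRiemannForm per ω₀)
  {R : Type} [Fintype R] [DecidableEq R] (e : Basis R ℂ (Fin n → ℂ)) {inv : R → R}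
  {a : R → ℂ} {q : ℂ} {γ : GG (pj b')} (hs : Sp b' e inv a q γ)

/-- The entries of the matrix of a rational endomorphism in the basis of eigenvectors. -/
def ent (P : H →ₗ[ℚ] H) (x y : R) : ℂ := e.repr (mQ b P *ᵥ e y) x

theorem ent_eq (P : H →ₗ[ℚ] H) (v : Fin n → ℂ) (x : R) :
    e.repr (mQ b P *ᵥ v) x = ∑ y, ent b e P x y * e.repr v y := by
  have h1 : v = ∑ y, e.repr v y • e y := (e.sum_repr v).symm
  conv_lhs => rw [h1]
  rw [← mulVecLin_apply, map_sum, map_sum, Finsupp.finsetSum_apply]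
  refine Finset.sum_congr rfl fun y _ => ?_
  rw [map_smul, map_smul, Finsupp.smul_apply, smul_eq_mul, mul_comm]
  rfl

theorem ent_comp (P Q : H →ₗ[ℚ] H) (x y : R) :
    ent b e (P ∘ₗ Q) x y = ∑ z, ent b e P x z * ent b e Q z y := by
  have h1 : ent b e (P ∘ₗ Q) x y = e.repr (mQ b P *ᵥ (mQ b Q *ᵥ e y)) x := by
    unfold ent
    rw [mQ_comp, Matrix.mulVec_mulVec]
  rw [h1, ent_eq]
  rfl

section gen

variable {P₀ : H →ₗ[ℚ] H} (hP₀ : IsHodgeEnd per P₀)
  (hgen : ∀ x y, evl b e P₀ y = evl b e P₀ x → ER per b e x y)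

include hb hR hs hP₀ hgen in
/-- Maps which commute with the algebra are block diagonal. -/
theorem ent_zero {P : H →ₗ[ℚ] H} (hP : ∀ z ∈ FF per b e inv, ∀ v, P (z v) = z (P v)) {x y : R}
    (hxy : ¬ WF per b e inv x y) : ent b e P x y = 0 := by
  obtain ⟨z, hz, hne⟩ : ∃ z ∈ FF per b e inv, evl b e z x ≠ evl b e z y := by
    by_contra h
    push Not at h
    exact hxy (FF_sep per b b' hb hR e hs hP₀ hgen h)
  have h1 : mQ b P * mQ b z = mQ b z * mQ b P := by
    rw [← mQ_comp, ← mQ_comp]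
    congr 1
    exact LinearMap.ext fun v => hP z hz v
  have h2 : e.repr ((mQ b P * mQ b z) *ᵥ e y) x = e.repr ((mQ b z * mQ b P) *ᵥ e y) x := by rw [h1]
  have h4 : ∀ v : Fin n → ℂ, e.repr (mQ b z *ᵥ v) x = evl b e z x * e.repr v x := by
    intro v
    rw [ent_eq, Finset.sum_eq_single x]
    · rfl
    · intro w _ hw
      unfold ent
      rw [FF_evl per b e hz, map_smul, Finsupp.smul_apply, Basis.repr_self,
        Finsupp.single_eq_of_ne hw.symm, smul_zero, zero_mul]
    · intro hx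
      exact absurd (Finset.mem_univ x) hx
  rw [← Matrix.mulVec_mulVec, ← Matrix.mulVec_mulVec, FF_evl per b e hz, h4, Matrix.mulVec_smul,
    map_smul, Finsupp.smul_apply, smul_eq_mul] at h2
  have h3 : (evl b e z y - evl b e z x) * ent b e P x y = 0 := by
    unfold ent
    linear_combination h2
  exact (mul_eq_zero.1 h3).resolve_left (sub_ne_zero.2 (Ne.symm hne))

open Classical in
/-- The determinant of a block. -/
def bd {L : Type} (bk : R → L) (l : L) (P : H →ₗ[ℚ] H) : ℂ :=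
  (Matrix.of fun x y : {x // bk x = l} => ent b e P x.1 y.1).det

open Classical in
include hb hR hs hP₀ hgen in
theorem bd_comp {L : Type} (bk : R → L)
    (hbk : ∀ x y, bk x = bk y ↔ WF per b e inv x y) (l : L) {P Q : H →ₗ[ℚ] H}
    (hP : ∀ z ∈ FF per b e inv, ∀ v, P (z v) = z (P v)) :
    bd b e bk l (P ∘ₗ Q) = bd b e bk l P * bd b e bk l Q := by
  unfold bd
  rw [← Matrix.det_mul]
  congr 1
  ext x y
  rw [Matrix.mul_apply, Matrix.of_apply, ent_comp]
  symm
  refine Fintype.sum_of_injective (fun z : {x // bk x = l} => z.1) Subtype.val_injective _ _ ?_ ?_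
  · intro z hz
    rw [ent_zero per b b' hb hR e hs hP₀ hgen hP, zero_mul]
    intro h
    apply hz
    exact ⟨⟨z, ((hbk _ _).2 h).symm.trans x.2⟩, rfl⟩
  · intro z
    rfl

theorem bd_id {L : Type} (bk : R → L) (l : L) :
    bd b e bk l (LinearMap.id : H →ₗ[ℚ] H) = 1 := by
  classical
  have h0 : mQ b (LinearMap.id : H →ₗ[ℚ] H) = 1 := by
    ext i j
    change ((b.repr (b j) i : ℚ) : ℂ) = _
    rw [Basis.repr_self, Finsupp.single_apply, Matrix.one_apply]
    by_cases h : i = j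
    · rw [if_pos h, if_pos h.symm, Rat.cast_one]
    · rw [if_neg h, if_neg (fun h' => h h'.symm), Rat.cast_zero]
  have h1 : (Matrix.of fun x y : {x // bk x = l} =>
      ent b e (LinearMap.id : H →ₗ[ℚ] H) x.1 y.1) = 1 := by
    ext x y
    rw [Matrix.of_apply]
    unfold ent
    rw [h0, Matrix.one_mulVec, Basis.repr_self, Finsupp.single_apply, Matrix.one_apply]
    by_cases h : x = y
    · rw [if_pos h, if_pos (congrArg Subtype.val h).symm]
    · rw [if_neg h, if_neg (fun h' => h (Subtype.ext h'.symm))]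
  unfold bd
  rw [h1]
  exact (det_inst _ _ _ _ _).trans (Matrix.det_one (n := {x // bk x = l}))

include hb hR hs hP₀ hgen in
open Classical in
theorem com_mat {L : Type} (bk : R → L)
    (hbk : ∀ x y, bk x = bk y ↔ WF per b e inv x y) {P : H →ₗ[ℚ] H}
    (hP : P ∈ ComF (FF per b e inv : Set (Module.End ℚ H))) :
    ∃ G : Matrix R R ℂ,
      (∀ v x, e.repr (mQ b P *ᵥ v) x = ∑ y, G x y * e.repr v y) ∧
      (∀ x y, bk x ≠ bk y → G x y = 0) ∧
      ∀ l : L, (Matrix.of fun x y : {x // bk x = l} => G x.1 y.1).det = 1 := by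
  obtain ⟨g, h, hg, hh, rfl⟩ := hP
  have hg' : ∀ z ∈ FF per b e inv, ∀ v, g.symm.toLinearMap (z v) =
      z (g.symm.toLinearMap v) := fun z hz v => comm_symm (hg z hz) v
  have hh' : ∀ z ∈ FF per b e inv, ∀ v, h.symm.toLinearMap (z v) =
      z (h.symm.toLinearMap v) := fun z hz v => comm_symm (hh z hz) v
  refine ⟨fun x y => ent b e (g.toLinearMap ∘ₗ h.toLinearMap ∘ₗ g.symm.toLinearMap ∘ₗ
    h.symm.toLinearMap) x y, fun v x => ent_eq b e _ v x, fun x y hxy => ?_, fun l => ?_⟩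
  · refine ent_zero per b b' hb hR e hs hP₀ hgen (fun z hz v => ?_)
      (fun hw => hxy ((hbk x y).2 hw))
    change g (h (g.symm (h.symm (z v)))) = z (g (h (g.symm (h.symm v))))
    rw [comm_symm (hh z hz), comm_symm (hg z hz), hh z hz, hg z hz]
  · change bd b e bk l _ = 1
    have hg1 : ∀ z ∈ FF per b e inv, ∀ v, g.toLinearMap (z v) = z (g.toLinearMap v) := hg
    have hh1 : ∀ z ∈ FF per b e inv, ∀ v, h.toLinearMap (z v) = z (h.toLinearMap v) := hh
    rw [bd_comp per b b' hb hR e hs hP₀ hgen bk hbk l hg1,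
      bd_comp per b b' hb hR e hs hP₀ hgen bk hbk l hh1,
      bd_comp per b b' hb hR e hs hP₀ hgen bk hbk l hg']
    have e1 : bd b e bk l g.toLinearMap * bd b e bk l g.symm.toLinearMap = 1 := by
      rw [← bd_comp per b b' hb hR e hs hP₀ hgen bk hbk l hg1, ← bd_id b e bk l]
      congr 1
      exact LinearMap.ext fun v => g.apply_symm_apply v
    have e2 : bd b e bk l h.toLinearMap * bd b e bk l h.symm.toLinearMap = 1 := by
      rw [← bd_comp per b b' hb hR e hs hP₀ hgen bk hbk l hh1, ← bd_id b e bk l]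
      congr 1
      exact LinearMap.ext fun v => h.apply_symm_apply v
    linear_combination (bd b e bk l h.toLinearMap * bd b e bk l h.symm.toLinearMap) * e1 + e2

end gen

include hb hR hs in
/-- **The structure of the Hodge tensors**, given a special element. -/
theorem strF [FiniteDimensional ℚ H] {D : ℕ} (hD : finrank ℚ (KF per b e inv) ≤ D) :
    ∃ F : Subalgebra ℚ (Module.End ℚ H),
      (∀ P ∈ F, ∀ Q : H →ₗ[ℚ] H, IsHodgeEnd per Q → P ∘ₗ Q = Q ∘ₗ P) ∧
      (∀ P ∈ F, IsHodgeEnd per P) ∧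
      (∃ (M : ℕ) (r : (ℂ ≃+* ℂ) →* (Matrix (Fin M) (Fin M) ℚ)ˣ), M ≤ D ∧
        ((r cc : (Matrix (Fin M) (Fin M) ℚ)ˣ) : Matrix (Fin M) (Fin M) ℚ) = -1 ∧
        (∀ σ, r σ = 1 ↔ ∀ P ∈ F, ∀ z : ℂ,
          (P.charpoly.map (algebraMap ℚ ℂ)).IsRoot z → σ z = z) ∧
        (M = 0 → ∀ (m : ℕ) (ψ : MultilinearMap ℚ (fun _ : Fin m × Fin 2 => H) ℚ),
          IsHodgeTensor per ψ → ψ ∈ Submodule.span ℚ
            {ψ : MultilinearMap ℚ (fun _ : Fin m × Fin 2 => H) ℚ |
              IsProductOfHodgeBilinear per ψ})) ∧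
      ∀ (m : ℕ) (ψ : MultilinearMap ℚ (fun _ : Fin m × Fin 2 => H) ℚ), IsHodgeTensor per ψ →
        ψ ∈ Submodule.span ℚ (HSet per (ComF (F : Set (Module.End ℚ H))) m) := by
  classical
  obtain ⟨P₀, hP₀, hgen⟩ := exists_gen per b e
  let S : Setoid R :=
    { r := WF per b e inv
      iseqv :=
        { refl := wf_refl per b e inv
          symm := wf_symm per b e inv
          trans := wf_trans per b e inv } }
  let bk : R → Quotient S := Quotient.mk S
  have hbk : ∀ x y, bk x = bk y ↔ WF per b e inv x y := fun x y => Quotient.eq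
  refine ⟨FF per b e inv, ?_, fun P hP => FF_hodge per b b' hb hR e hs hP, ?_, ?_⟩
  · intro P hP Q hQ
    have h1 : (mQ b P).mulVecLin ∘ₗ (mQ b Q).mulVecLin =
        (mQ b Q).mulVecLin ∘ₗ (mQ b P).mulVecLin := by
      refine e.ext fun x => ?_
      rw [LinearMap.comp_apply, LinearMap.comp_apply, mulVecLin_apply, mulVecLin_apply,
        mulVecLin_apply, mulVecLin_apply, evl_eq per b b' hb hR e hs hQ,
        FF_evl per b e hP, mulVec_smul, mulVec_smul, evl_eq per b b' hb hR e hs hQ,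
        FF_evl per b e hP, smul_comm]
    refine LinearMap.ext fun w => ?_
    have h2 := congrArg (fun f : (Fin n → ℂ) →ₗ[ℂ] (Fin n → ℂ) => f (cpr b w)) h1
    simp only [LinearMap.comp_apply, mulVecLin_apply, mQ_cpr] at h2
    apply b.repr.injective
    ext i
    have h3 := congrFun h2 i
    unfold cpr at h3
    exact_mod_cast h3
  · obtain ⟨Λ, hΛ1, hΛ2⟩ := exists_rep per b b' hb hR e hs hP₀ hgen
    let f : (ℂ ≃+* ℂ) →* Matrix (Fin (finrank ℚ (KF per b e inv)))
        (Fin (finrank ℚ (KF per b e inv))) ℚ :=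
      ((LinearMap.toMatrixAlgEquiv (finBasis ℚ (KF per b e inv)) :
        Module.End ℚ (KF per b e inv) ≃ₐ[ℚ] _) : Module.End ℚ (KF per b e inv) →* _).comp Λ
    refine ⟨finrank ℚ (KF per b e inv), f.toHomUnits, hD, ?_, fun σ => ?_, fun h0 m ψ hψ => ?_⟩
    · change LinearMap.toMatrixAlgEquiv (finBasis ℚ (KF per b e inv)) (Λ cc) = -1
      have h0 := map_neg (LinearMap.toMatrixAlgEquiv (finBasis ℚ (KF per b e inv)))
        (1 : Module.End ℚ (KF per b e inv))
      rw [map_one] at h0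
      rw [hΛ1]
      exact h0
    · have h1 : f.toHomUnits σ = 1 ↔ Λ σ = 1 := by
        rw [← Units.val_inj, MonoidHom.coe_toHomUnits, Units.val_one]
        constructor
        · intro h
          apply (LinearMap.toMatrixAlgEquiv (finBasis ℚ (KF per b e inv))).injective
          rw [map_one]
          exact h
        · intro h
          change LinearMap.toMatrixAlgEquiv (finBasis ℚ (KF per b e inv)) (Λ σ) = 1
          rw [h, map_one]
      rw [h1, hΛ2]
      have hroot : ∀ P ∈ FF per b e inv, ∀ z : ℂ,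
          (P.charpoly.map (algebraMap ℚ ℂ)).IsRoot z ↔ ∃ x, evl b e P x = z := by
        intro P hP z
        have h2 : (P.charpoly.map (algebraMap ℚ ℂ)) = (mQ b P).charpoly := (mQ_eq_charpoly b P).symm
        rw [h2, ← Polynomial.rootMultiplicity_pos (Matrix.charpoly_monic _).ne_zero,
          mult_diagE e (FF_evl per b e hP), Finset.card_pos]
        constructor
        · rintro ⟨x, hx⟩
          exact ⟨x, (Finset.mem_filter.1 hx).2⟩
        · rintro ⟨x, hx⟩
          exact ⟨x, Finset.mem_filter.2 ⟨Finset.mem_univ _, hx⟩⟩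
      constructor
      · intro h P hP z hz
        obtain ⟨x, rfl⟩ := (hroot P hP z).1 hz
        exact h P hP x
      · intro h P hP x
        exact h P hP _ ((hroot P hP _).2 ⟨x, rfl⟩)
    · have hK : KF per b e inv = ⊥ := Submodule.finrank_eq_zero.1 h0
      refine tensor_low per b b' hb hR e inv hs (M := max m 1) (le_max_right _ _)
        (fun m' _ ψ' hψ' I hI y => ?_) (le_max_left _ _) ψ hψ
      have h1 : (fun y => ((dl inv I y : ℤ) : ℚ)) ∈ KF per b e inv :=
        Submodule.subset_span ⟨m', ψ', I, hψ', hI, rfl⟩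
      rw [hK, Submodule.mem_bot] at h1
      have h2 : ((dl inv I y : ℤ) : ℚ) = 0 := congrFun h1 y
      exact_mod_cast h2
  · intro m ψ hψ
    refine strC per b b' hb hR e inv hs bk hbk _ (fun P hP => ?_) ψ hψ
    obtain ⟨G, h1, h2, h3⟩ := com_mat per b b' hb hR e hs hP₀ hgen bk hbk hP
    refine ⟨G, h1, h2, fun l => ?_⟩
    exact (det_inst _ _ _ _ _).trans (h3 l)

end

end Pool.Agent.Q43.FS
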