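import Pool.Agent.Q43.FS.Kk

/-!
# The algebra of endomorphisms which are constant on the blocks, and the Galois representation
-/

set_option autoImplicit false
set_option linter.unusedSectionVars false

namespace Pool.Agent.Q43.FS

open Module Matrix Pool.Agent.H204R3.CM Pool.Agent.H204R3.SP Pool.Agent.H204R3.GP
  Pool.Agent.W516.MTD Pool.Agent.W516.FT Pool.Agent.Q43.HL

noncomputable section

variable {n : ℕ} {H T : Type} [AddCommGroup H] [Module ℚ H] [AddCommGroup T] [Module ℂ T]
  (per : H →+ T) (b : Basis (Fin n) ℚ H) (b' : Basis (Fin n) ℝ T) (hb : ∀ i, b' i = per (b i))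
  {ω₀ : H →ₗ[ℚ] H →ₗ[ℚ] ℚ} (hR : IsRiemannForm per ω₀)
  {R : Type} [Fintype R] [DecidableEq R] (e : Basis R ℂ (Fin n → ℂ)) {inv : R → R}
  {a : R → ℂ} {q : ℂ} {γ : GG (pj b')} (hs : Sp b' e inv a q γ)

theorem mQ_add (P Q : H →ₗ[ℚ] H) : mQ b (P + Q) = mQ b P + mQ b Q := by
  ext i j
  change ((b.repr (P (b j) + Q (b j)) i : ℚ) : ℂ) = _
  rw [map_add, Finsupp.add_apply, Rat.cast_add]
  rfl

theorem mQ_algebraMap (t : ℚ) : mQ b (algebraMap ℚ (Module.End ℚ H) t) = (t : ℂ) • 1 := by
  ext i j
  change ((b.repr (t • b j) i : ℚ) : ℂ) = _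
  rw [map_smul, Finsupp.smul_apply, Basis.repr_self, Finsupp.single_apply, Matrix.smul_apply,
    Matrix.one_apply, smul_eq_mul, smul_eq_mul, Rat.cast_mul]
  by_cases h : i = j
  · rw [if_pos h, if_pos h.symm, Rat.cast_one]
  · rw [if_neg h, if_neg (fun h' => h h'.symm), Rat.cast_zero]

/-- The algebra of the endomorphisms which are constant on the blocks. -/
def FF (inv : R → R) : Subalgebra ℚ (Module.End ℚ H) where
  carrier := {P | ∃ c : R → ℂ, (∀ x, mQ b P *ᵥ e x = c x • e x) ∧
    ∀ x y, WF per b e inv x y → c x = c y}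
  mul_mem' := by
    rintro P Q ⟨c, h1, h2⟩ ⟨d, h3, h4⟩
    refine ⟨fun x => c x * d x, fun x => ?_, fun x y h => ?_⟩
    · change mQ b (P ∘ₗ Q) *ᵥ e x = _
      rw [mQ_comp, ← Matrix.mulVec_mulVec, h3, Matrix.mulVec_smul, h1, smul_smul, mul_comm]
    · change c x * d x = c y * d y
      rw [h2 x y h, h4 x y h]
  add_mem' := by
    rintro P Q ⟨c, h1, h2⟩ ⟨d, h3, h4⟩
    refine ⟨fun x => c x + d x, fun x => ?_, fun x y h => ?_⟩
    · rw [mQ_add, Matrix.add_mulVec, h1, h3, add_smul]
    · change c x + d x = c y + d y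
      rw [h2 x y h, h4 x y h]
  algebraMap_mem' t := by
    refine ⟨fun _ => (t : ℂ), fun x => ?_, fun _ _ _ => rfl⟩
    rw [mQ_algebraMap, Matrix.smul_mulVec, Matrix.one_mulVec]

theorem FF_evl {P : Module.End ℚ H} (hP : P ∈ FF per b e inv) (x : R) :
    mQ b P *ᵥ e x = evl b e P x • e x := by
  obtain ⟨c, h1, -⟩ := hP
  rw [evl_of b e (h1 x)]
  exact h1 x

theorem FF_wf {P : Module.End ℚ H} (hP : P ∈ FF per b e inv) {x y : R}
    (h : WF per b e inv x y) : evl b e P x = evl b e P y := by
  obtain ⟨c, h1, h2⟩ := hP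
  rw [evl_of b e (h1 x), evl_of b e (h1 y), h2 x y h]

include hb hR hs in
theorem FF_hodge {P : Module.End ℚ H} (hP : P ∈ FF per b e inv) : IsHodgeEnd per P := by
  obtain ⟨c, h1, h2⟩ := hP
  exact end_block per b b' hb hR e inv hs c h1 h2

include hb hR hs in
/-- Diagonal matrices which are constant on the blocks are combinations of Hodge endomorphisms. -/
theorem dg_mem (c : R → ℂ) (hc : ∀ x y, WF per b e inv x y → c x = c y) :
    dg e c ∈ Submodule.span ℂ {P' : (Fin n → ℂ) →ₗ[ℂ] (Fin n → ℂ) | ∃ Q : H →ₗ[ℚ] H,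
      IsHodgeEnd per Q ∧ P' = (mQ b Q).mulVecLin} := by
  classical
  have hpol := isPol_of per b b' hb hR
  let S : Setoid R :=
    { r := WF per b e inv
      iseqv :=
        { refl := wf_refl per b e inv
          symm := wf_symm per b e inv
          trans := wf_trans per b e inv } }
  let bk : R → Quotient S := Quotient.mk S
  have hbk : ∀ x y, bk x = bk y ↔ WF per b e inv x y := fun x y => Quotient.eq
  apply ae_span per b b' hb hR
  exact dg_block e (inv := inv)
    (jj := fun x => om b ω₀ (e x) (e (inv x))) hs.inv_inv hs.ne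
    (hs.jj_anti per b b' hb hR e) (hs.jj_ne per b b' hb hR e)
    (om b ω₀) (hs.om_pair per b b' hb hR e) (rho (pj b')) (chi (pj b'))
    hpol.sim hpol.hasProj hs.eig hs.q0 hs.mul hs.mlt hs.four bk
    (fun x y h => (hbk x y).2 (tate_wf per b b' e inv hb fun m φ hφ I hI => h m φ hφ I hI)) c
    (fun y z hyz => hc y z ((hbk y z).1 hyz))

include hb hR hs in
theorem conj_diag (τ : ℂ ≃+* ℂ) {L : (Fin n → ℂ) →ₗ[ℂ] (Fin n → ℂ)}
    (hL : L ∈ Submodule.span ℂ {P' : (Fin n → ℂ) →ₗ[ℂ] (Fin n → ℂ) | ∃ Q : H →ₗ[ℚ] H,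
      IsHodgeEnd per Q ∧ P' = (mQ b Q).mulVecLin}) {z z' : R} (hz : GR per b e τ z' z) :
    ((LinearMap.toMatrix' L).map τ) *ᵥ e z = τ (e.repr (L (e z')) z') • e z := by
  induction hL using Submodule.span_induction with
  | mem L hL =>
    obtain ⟨Q, hQ, rfl⟩ := hL
    have h1 : LinearMap.toMatrix' (mQ b Q).mulVecLin = mQ b Q := by
      rw [← Matrix.toLin'_apply']
      exact LinearMap.toMatrix'_toLin' _
    rw [h1, mQ_rat, evl_eq per b b' hb hR e hs hQ, hz Q hQ]
    rfl
  | zero =>
    rw [map_zero, LinearMap.zero_apply, map_zero, Finsupp.zero_apply, map_zero, zero_smul]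
    have h1 : (0 : Matrix (Fin n) (Fin n) ℂ).map τ = 0 := by
      ext i j
      exact map_zero τ
    rw [h1, Matrix.zero_mulVec]
  | add L L' _ _ hL hL' =>
    have h1 : (LinearMap.toMatrix' (L + L')).map τ = (LinearMap.toMatrix' L).map τ +
        (LinearMap.toMatrix' L').map τ := by
      rw [map_add]
      ext i j
      exact map_add τ _ _
    rw [h1, Matrix.add_mulVec, hL, hL', LinearMap.add_apply, map_add, Finsupp.add_apply, map_add,
      add_smul]
  | smul c L _ hL =>
    have h1 : (LinearMap.toMatrix' (c • L)).map τ = τ c • (LinearMap.toMatrix' L).map τ := by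
      rw [map_smul]
      ext i j
      exact map_mul τ _ _
    rw [h1, Matrix.smul_mulVec, hL, LinearMap.smul_apply, map_smul, Finsupp.smul_apply,
      smul_eq_mul, map_mul, smul_smul]

section gen

variable {P₀ : H →ₗ[ℚ] H} (hP₀ : IsHodgeEnd per P₀)
  (hgen : ∀ x y, evl b e P₀ y = evl b e P₀ x → ER per b e x y)

theorem gr_symm {σ : ℂ ≃+* ℂ} {x y : R} (h : GR per b e σ x y) : GR per b e σ.symm y x := by
  intro P hP
  rw [h P hP, RingEquiv.symm_apply_apply]

include hb hR hs hP₀ hgen in
/-- The algebra separates the blocks. -/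
theorem FF_sep {x y : R} (h : ∀ P ∈ FF per b e inv, evl b e P x = evl b e P y) :
    WF per b e inv x y := by
  classical
  let MM : (Fin n × Fin n → ℂ) → Matrix (Fin n) (Fin n) ℂ := fun v => Matrix.of fun i j => v (i, j)
  let C : Submodule ℂ (Fin n × Fin n → ℂ) :=
    { carrier := {v | ∃ c : R → ℂ, (∀ x, MM v *ᵥ e x = c x • e x) ∧
        ∀ x y, WF per b e inv x y → c x = c y}
      zero_mem' := ⟨0, fun x => by
        have h1 : MM 0 = 0 := rfl
        rw [h1, Matrix.zero_mulVec, Pi.zero_apply, zero_smul], fun _ _ _ => rfl⟩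
      add_mem' := by
        rintro v w ⟨c, h1, h2⟩ ⟨d, h3, h4⟩
        refine ⟨fun x => c x + d x, fun x => ?_, fun x y h => ?_⟩
        · have h5 : MM (v + w) = MM v + MM w := rfl
          rw [h5, Matrix.add_mulVec, h1, h3, add_smul]
        · change c x + d x = c y + d y
          rw [h2 x y h, h4 x y h]
      smul_mem' := by
        rintro t v ⟨c, h1, h2⟩
        refine ⟨fun x => t * c x, fun x => ?_, fun x y h => ?_⟩
        · have h5 : MM (t • v) = t • MM v := rfl
          rw [h5, Matrix.smul_mulVec, h1, smul_smul]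
        · change t * c x = t * c y
          rw [h2 x y h] }
  have hC : ∀ (τ : ℂ ≃+* ℂ), ∀ v ∈ C, (fun i => τ (v i)) ∈ C := by
    rintro τ v ⟨c, h1, h2⟩
    choose g hg using fun z => exists_gr per b b' hb hR e hs τ.symm z
    have hdg : dg e c = (MM v).mulVecLin := by
      refine e.ext fun x => ?_
      rw [dg_basis, mulVecLin_apply, h1]
    refine ⟨fun z => τ (c (g z)), fun z => ?_, fun z w hzw => ?_⟩
    · have h3 := conj_diag per b b' hb hR e hs τ (dg_mem per b b' hb hR e hs c h2)
        (z := z) (z' := g z) (gr_symm per b e (hg z))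
      have h4 : LinearMap.toMatrix' (dg e c) = MM v := by
        rw [hdg, ← Matrix.toLin'_apply']
        exact LinearMap.toMatrix'_toLin' _
      rw [h4, dg_basis, map_smul, Finsupp.smul_apply, Basis.repr_self, Finsupp.single_eq_same,
        smul_eq_mul, mul_one] at h3
      exact h3
    · change τ (c (g z)) = τ (c (g w))
      rw [h2 _ _ (wf_conj per b b' hb hR e hs hP₀ hgen hzw (gr_symm per b e (hg z))
        (gr_symm per b e (hg w)))]
  have hspan := Pool.Agent.W437.HD.span_rational C hC
  have hxy : ∀ v ∈ C, e.repr (MM v *ᵥ e x) x = e.repr (MM v *ᵥ e y) y := by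
    intro v hv
    rw [hspan] at hv
    induction hv using Submodule.span_induction with
    | mem w hw =>
      obtain ⟨hwC, u, hu⟩ := hw
      let P : Module.End ℚ H := Matrix.toLin b b (Matrix.of fun i j => u (i, j))
      have hP : mQ b P = MM w := by
        ext i j
        change ((b.repr (Matrix.toLin b b (Matrix.of fun i j => u (i, j)) (b j)) i : ℚ) : ℂ) =
          w (i, j)
        rw [Matrix.toLin_self, map_sum, Finset.sum_apply', Finset.sum_eq_single i]
        · rw [map_smul, Finsupp.smul_apply, Basis.repr_self, Finsupp.single_eq_same, smul_eq_mul,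
            mul_one, hu]
          rfl
        · intro k _ hk
          rw [map_smul, Finsupp.smul_apply, Basis.repr_self, Finsupp.single_eq_of_ne hk.symm,
            smul_zero]
        · intro hi
          exact absurd (Finset.mem_univ i) hi
      have hPF : P ∈ FF per b e inv := by
        obtain ⟨c, h1, h2⟩ := hwC
        exact ⟨c, fun x => by rw [hP]; exact h1 x, h2⟩
      have h3 := h P hPF
      unfold evl at h3
      rw [hP] at h3
      exact h3
    | zero =>
      have h1 : MM 0 = 0 := rfl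
      rw [h1, Matrix.zero_mulVec, Matrix.zero_mulVec, map_zero, Finsupp.zero_apply,
        Finsupp.zero_apply]
    | add v w _ _ hv hw =>
      have h5 : MM (v + w) = MM v + MM w := rfl
      rw [h5, Matrix.add_mulVec, Matrix.add_mulVec, map_add, map_add, Finsupp.add_apply,
        Finsupp.add_apply, hv, hw]
    | smul t v _ hv =>
      have h5 : MM (t • v) = t • MM v := rfl
      rw [h5, Matrix.smul_mulVec, Matrix.smul_mulVec, map_smul, map_smul, Finsupp.smul_apply,
        Finsupp.smul_apply, hv]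
  let c : R → ℂ := fun z => if WF per b e inv x z then 1 else 0
  let M₀ : Matrix (Fin n) (Fin n) ℂ := LinearMap.toMatrix' (dg e c)
  let v₀ : Fin n × Fin n → ℂ := fun p => M₀ p.1 p.2
  have hM₀ : ∀ z, MM v₀ *ᵥ e z = c z • e z := by
    intro z
    change LinearMap.toMatrix' (dg e c) *ᵥ e z = _
    rw [LinearMap.toMatrix'_mulVec, dg_basis]
  have hv₀ : v₀ ∈ C := by
    refine ⟨c, hM₀, fun z w hzw => ?_⟩
    change (if WF per b e inv x z then (1 : ℂ) else 0) = if WF per b e inv x w then 1 else 0
    have h1 : WF per b e inv x z ↔ WF per b e inv x w :=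
      ⟨fun h => wf_trans per b e inv h hzw,
        fun h => wf_trans per b e inv h (wf_symm per b e inv hzw)⟩
    simp only [h1]
  have h1 := hxy v₀ hv₀
  rw [hM₀, hM₀, map_smul, map_smul, Finsupp.smul_apply, Finsupp.smul_apply, Basis.repr_self,
    Basis.repr_self, Finsupp.single_eq_same, Finsupp.single_eq_same, smul_eq_mul, smul_eq_mul,
    mul_one, mul_one] at h1
  by_contra hno
  change (if WF per b e inv x x then (1 : ℂ) else 0) = if WF per b e inv x y then 1 else 0 at h1
  rw [if_pos (wf_refl per b e inv x), if_neg hno] at h1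
  exact one_ne_zero h1

/-- The span of the excesses of the words of Hodge tensors. -/
def KF (inv : R → R) : Submodule ℚ (R → ℚ) :=
  Submodule.span ℚ {f | ∃ (m : ℕ) (ψ : MultilinearMap ℚ (fun _ : Fin m × Fin 2 => H) ℚ)
    (I : Fin m × Fin 2 → R), IsHodgeTensor per ψ ∧
    ex b ψ (fun k => e (I k)) ≠ 0 ∧ f = fun y => ((dl inv I y : ℤ) : ℚ)}

theorem wf_iff (x y : R) : WF per b e inv x y ↔ ∀ f ∈ KF per b e inv, f x = f y := by
  constructor
  · intro h f hf
    refine Submodule.span_induction (p := fun f _ => f x = f y) ?_ ?_ ?_ ?_ hf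
    · rintro _ ⟨m, ψ, I, h1, h2, rfl⟩
      exact congrArg (fun z : ℤ => (z : ℚ)) (h m ψ h1 I h2)
    · rfl
    · intro f g _ _ hf hg
      rw [Pi.add_apply, Pi.add_apply, hf, hg]
    · intro c f _ hf
      rw [Pi.smul_apply, Pi.smul_apply, hf]
  · intro h m ψ hψ I hI
    have h1 := h _ (Submodule.subset_span ⟨m, ψ, I, hψ, hI, rfl⟩)
    exact_mod_cast h1

include hs in
theorem KF_odd {f : R → ℚ} (hf : f ∈ KF per b e inv) (y : R) : f (inv y) = - f y := by
  refine Submodule.span_induction (p := fun f _ => f (inv y) = - f y) ?_ ?_ ?_ ?_ hf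
  · rintro _ ⟨m, ψ, I, h1, h2, rfl⟩
    refine (congrArg (fun z : ℤ => (z : ℚ)) (dl_inv hs.inv_inv I y)).trans ?_
    push_cast
    rfl
  · simp
  · intro f g _ _ hf hg
    rw [Pi.add_apply, Pi.add_apply, hf, hg]
    ring
  · intro c f _ hf
    rw [Pi.smul_apply, Pi.smul_apply, hf, smul_neg]

include hb hR hs hP₀ hgen in
/-- Conjugate functions. -/
theorem KF_conj {σ : ℂ ≃+* ℂ} {g : R → R} (hg : ∀ x, GR per b e σ x (g x)) {f : R → ℚ}
    (hf : f ∈ KF per b e inv) : (fun y => f (g y)) ∈ KF per b e inv := by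
  refine Submodule.span_induction (p := fun f _ => (fun y => f (g y)) ∈ KF per b e inv)
    ?_ ?_ ?_ ?_ hf
  · rintro _ ⟨m, ψ, I, h1, h2, rfl⟩
    obtain ⟨J, hJ, hIJ⟩ := exists_word per b b' hb hR e hs hP₀ hgen σ.symm ψ I h2
    refine Submodule.subset_span ⟨m, ψ, J, h1, hJ, funext fun y => ?_⟩
    refine congrArg (fun z : ℤ => (z : ℚ)) ?_
    exact (dl_transport per b b' hb hR e hs hP₀ hgen h1 h2 hJ hIJ (gr_symm per b e (hg y))).symm
  · exact Submodule.zero_mem _
  · intro f g _ _ hf hg
    exact Submodule.add_mem _ hf hg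
  · intro c f _ hf
    exact Submodule.smul_mem _ c hf

include hb hR hs in
theorem KF_er {f : R → ℚ} (hf : f ∈ KF per b e inv) {x y : R} (h : ER per b e x y) : f x = f y :=
  (wf_iff per b e x y).1 (er_wf per b b' hb hR e hs h) f hf

include hb hR hs hP₀ hgen in
/-- The representation of the automorphisms of the complex numbers. -/
theorem exists_rep : ∃ Λ : (ℂ ≃+* ℂ) →* Module.End ℚ (KF per b e inv), Λ cc = -1 ∧
    ∀ σ, Λ σ = 1 ↔ ∀ P ∈ FF per b e inv, ∀ x, σ (evl b e P x) = evl b e P x := by
  choose g hg using fun (σ : ℂ ≃+* ℂ) (x : R) => exists_gr per b b' hb hR e hs σ x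
  let Λ : (ℂ ≃+* ℂ) →* Module.End ℚ (KF per b e inv) :=
    { toFun := fun σ =>
        { toFun := fun f => ⟨fun y => f.1 (g σ.symm y),
            KF_conj per b b' hb hR e hs hP₀ hgen (hg σ.symm) f.2⟩
          map_add' := fun _ _ => rfl
          map_smul' := fun _ _ => rfl }
      map_one' := by
        refine LinearMap.ext fun f => Subtype.ext (funext fun y => ?_)
        refine (KF_er per b b' hb hR e hs f.2 fun P hP => ?_).symm
        exact hg _ y P hP
      map_mul' := by
        intro σ τ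
        refine LinearMap.ext fun f => Subtype.ext (funext fun y => ?_)
        change f.1 (g (σ * τ).symm y) = f.1 (g τ.symm (g σ.symm y))
        refine KF_er per b b' hb hR e hs f.2 fun P hP => ?_
        rw [hg _ _ P hP, hg _ _ P hP, hg _ _ P hP]
        rfl }
  refine ⟨Λ, ?_, fun σ => ?_⟩
  · refine LinearMap.ext fun f => Subtype.ext (funext fun y => ?_)
    change f.1 (g cc.symm y) = - f.1 y
    rw [← KF_odd per b b' e hs f.2 y]
    refine KF_er per b b' hb hR e hs f.2 fun P hP => ?_
    rw [hg _ _ P hP, gr_cc per b b' hb hR e hs y P hP]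
    rfl
  · constructor
    · intro h P hP x
      have h1 : WF per b e inv (g σ.symm x) x := by
        rw [wf_iff]
        intro f hf
        exact congrArg (fun L : Module.End ℚ (KF per b e inv) => (L ⟨f, hf⟩).1 x) h
      have h2 := FF_wf per b e hP h1
      rw [hg σ.symm x P (FF_hodge per b b' hb hR e hs hP)] at h2
      conv_lhs => rw [← h2]
      exact σ.apply_symm_apply _
    · intro h
      refine LinearMap.ext fun f => Subtype.ext (funext fun x => ?_)
      change f.1 (g σ.symm x) = f.1 x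
      refine (wf_iff per b e _ _).1 (FF_sep per b b' hb hR e hs hP₀ hgen fun P hP => ?_) f.1 f.2
      rw [hg σ.symm x P (FF_hodge per b b' hb hR e hs hP)]
      conv_lhs => rw [← h P hP x]
      exact σ.symm_apply_apply _

end gen

end

end Pool.Agent.Q43.FS
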