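import Pool.Agent.Q43.FS.Tr

/-!
# The special element given by a Frobenius element
-/

set_option autoImplicit false
set_option linter.unusedSectionVars false

namespace Pool.Agent.Q43.FS

open NumberField Module Matrix TensorProduct Pool.Agent.H204R3 Pool.Agent.H204R3.CM Pool.Agent.H204R3.SP
  Pool.Agent.H204R3.GP Pool.Agent.W516.MTD Pool.Agent.W516.FT Pool.Agent.Q43.HL
  Pool.Agent.TH776.FM Pool.Agent.Q43.RP

noncomputable section

section four

variable {I : Type} [Fintype I] (K : I → Type) [∀ i, Field (K i)] [∀ i, NumberField (K i)]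
  [∀ i, IsCMField (K i)]

theorem two_bar {q : ℚ} (π : ∀ i, K i) {k : ℕ} (hk : 2 ≤ k) (hsf : ShortFree K q π k) {s : ℕ}
    (hs : 0 < s) (x y : Σ i, (K i →+* ℂ))
    (h : (val π x * val π y) ^ (2 * s) = ((q : ℂ) ^ 2) ^ s) : y = GP.bar x := by
  classical
  have h1 := count_eq K π hsf hk (RingHom.id ℂ) ![x, y] s hs (by
    rw [Fin.prod_univ_two]
    exact h) x
  have h2 : 0 < (Finset.univ.filter (fun l => (![x, y] : Fin 2 → _) l = x)).card :=
    Finset.card_pos.2 ⟨0, by simp⟩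
  rw [h1] at h2
  obtain ⟨l, hl⟩ := Finset.card_pos.1 h2
  rw [Finset.mem_filter] at hl
  fin_cases l
  · exact absurd hl.2.symm (GP.bar_ne x)
  · exact hl.2

/-- Only trivial relations of length four between the powers of the eigenvalues. -/
theorem four_bar {q : ℚ} (hq : q ≠ 0) (π : ∀ i, K i)
    (hweil : ∀ i, ∀ φ : K i →+* ℂ, ‖φ (π i)‖ ^ 2 = (q : ℝ)) {k : ℕ}
    (hk : 4 ≤ k) (hsf : ShortFree K q π k) {N : ℕ} (hN : 0 < N) :
    Four (Ω := ℂ) GP.bar (fun x : Σ i, (K i →+* ℂ) => val π x ^ N) ((q : ℂ) ^ N) := by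
  classical
  have hq0 : (q : ℂ) ≠ 0 := Rat.cast_ne_zero.2 hq
  intro M hM a b c d hrel0
  have hrel : (val π a * val π b * val π c * val π d) ^ (N * M) = (q : ℂ) ^ (2 * (N * M)) := by
    have h1 : (val π a * val π b * val π c * val π d) ^ (N * M) =
        (val π a ^ N * val π b ^ N * val π c ^ N * val π d ^ N) ^ M := by
      rw [pow_mul, mul_pow _ _ N, mul_pow _ _ N, mul_pow _ _ N]
    rw [h1, hrel0, ← pow_mul]
    congr 1
    ring
  have hNM : 0 < N * M := Nat.mul_pos hN hM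
  generalize N * M = M at hrel hNM
  have h1 := count_eq K π hsf hk (RingHom.id ℂ) ![a, b, c, d] M hNM (by
    rw [Fin.prod_univ_four, mul_comm 2 M, pow_mul]
    change ((val π a * val π b * val π c * val π d) ^ M) ^ 2 = _
    rw [hrel, ← pow_mul, ← pow_mul]
    congr 1
    ring) a
  have h2 : 0 < (Finset.univ.filter (fun l => (![a, b, c, d] : Fin 4 → _) l = a)).card :=
    Finset.card_pos.2 ⟨0, by simp⟩
  rw [h1] at h2
  obtain ⟨l, hl⟩ := Finset.card_pos.1 h2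
  rw [Finset.mem_filter] at hl
  have hrest : ∀ x y z w : Σ i, (K i →+* ℂ), y = GP.bar x →
      (val π x * val π y * val π z * val π w) ^ M = (q : ℂ) ^ (2 * M) → w = GP.bar z := by
    rintro x y z w rfl hr
    have h3 : val π x * val π (GP.bar x) = (q : ℂ) := val_barC K hweil (RingHom.id ℂ) x
    rw [h3, mul_assoc, mul_pow, mul_comm 2 M, pow_mul, sq] at hr
    have h4 := mul_left_cancel₀ (pow_ne_zero M hq0) hr
    apply two_bar K π (by omega) hsf hNM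
    rw [mul_comm 2 M, pow_mul, h4, ← pow_mul, ← pow_mul]
    congr 1
    ring
  fin_cases l
  · exact absurd hl.2.symm (GP.bar_ne a)
  · exact Or.inl ⟨hl.2, hrest a b c d hl.2 hrel⟩
  · refine Or.inr (Or.inl ⟨hl.2, hrest a c b d hl.2 ?_⟩)
    rw [← hrel]
    congr 1
    ring
  · refine Or.inr (Or.inr ⟨hl.2, ?_⟩)
    refine hrest a d b c hl.2 ?_
    rw [← hrel]
    congr 1
    ring

end four

section frob

variable {I : Type} [Fintype I] (K : I → Type) [∀ i, Field (K i)] [∀ i, NumberField (K i)]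
  [∀ i, IsCMField (K i)]
  {n : ℕ} {k H T Γ : Type} [Field k] [CharZero k] [AddCommGroup H] [Module ℚ H]
  [FiniteDimensional ℚ H] [AddCommGroup T] [Module ℂ T] [Group Γ] {per : H →+ T}
  (b : Basis (Fin n) ℚ H) (b' : Basis (Fin n) ℝ T) (hb : ∀ i, b' i = per (b i))

/-- **The special element given by a Frobenius element.** -/
theorem exists_frob (j : k →+* ℂ) {q : ℚ} (hq : 0 < q) (π : ∀ i, K i)
    (hweil : ∀ i, ∀ φ : K i →+* ℂ, ‖φ (π i)‖ ^ 2 = (q : ℝ))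
    (hsf : ShortFree K q π 4) (hb : ∀ i, b' i = per (b i))
    {ρ : Representation k Γ (k ⊗[ℚ] H)} {χ : Γ →* k} (hD : Deligne per ρ χ)
    (γ : Γ) (hχ : χ γ = (q : k))
    (hγ : (ρ γ).charpoly = (∏ i, minpoly ℚ (π i)).map (algebraMap ℚ k)) :
    ∃ (e : Basis (Σ i, (K i →+* ℂ)) ℂ (Fin n → ℂ)) (N : ℕ) (γ₀ : GG (pj b')), 0 < N ∧
      Sp b' e GP.bar (fun x => val π x ^ N) ((q : ℂ) ^ N) γ₀ ∧
      ∀ (m : ℕ) (ψ : MultilinearMap ℚ (fun _ : Fin m × Fin 2 => H) ℚ), IsHodgeTensor per ψ →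
        ∀ J : Fin m × Fin 2 → (Σ i, (K i →+* ℂ)), ex b ψ (fun l => e (J l)) ≠ 0 →
          (∏ l, val π (J l)) ^ N = ((q : ℂ) ^ m) ^ N := by
  classical
  have hq0 : (q : ℂ) ≠ 0 := Rat.cast_ne_zero.2 hq.ne'
  have hinj := val_injC K π hweil (by norm_num) hsf (RingHom.id ℂ)
  have hgen : ∀ i, IntermediateField.adjoin ℚ {π i} = ⊤ := fun i => gen_of_inj K π hinj i
  have hcard : ∀ i, Fintype.card (K i →+* ℂ) = finrank ℚ (K i) := fun i =>
    NumberField.Embeddings.card (K i) ℂ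
  have hT : (mk j b (ρ γ)).mulVecLin.charpoly =
      ∏ i, (minpoly ℚ (π i)).map (algebraMap ℚ ℂ) := by
    rw [mk_charpoly, hγ, Polynomial.map_map, Polynomial.map_prod]
    refine Finset.prod_congr rfl fun i _ => ?_
    congr 1
    exact RingHom.ext_rat _ _
  obtain ⟨e, he⟩ := exists_eigenbasisG (Ω := ℂ) (L := ℂ) hgen (RingHom.id ℂ) hcard hinj
    ((mk j b (ρ γ)).mulVecLin) hT
  have he' : ∀ (N : ℕ) (x : Σ i, (K i →+* ℂ)),
      (mk j b (ρ γ) ^ N) *ᵥ e x = (val π x) ^ N • e x := by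
    intro N x
    induction N with
    | zero => rw [pow_zero, pow_zero, one_mulVec, one_smul]
    | succ N ih =>
      have h1 : mk j b (ρ γ) *ᵥ e x = val π x • e x := he x
      rw [pow_succ, ← Matrix.mulVec_mulVec, h1, Matrix.mulVec_smul, ih, smul_smul, pow_succ,
        mul_comm]
  have hv0 : ∀ x : Σ i, (K i →+* ℂ), val π x ≠ 0 := by
    intro x h0
    have h1 := val_barC K hweil (RingHom.id ℂ) x
    rw [h0, zero_mul] at h1
    exact hq0 h1.symm
  -- the theorem of Deligne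
  have hword : ∀ (m : ℕ) (ψ : MultilinearMap ℚ (fun _ : Fin m × Fin 2 => H) ℚ),
      IsHodgeTensor per ψ → ∀ J : Fin m × Fin 2 → (Σ i, (K i →+* ℂ)),
      ex b ψ (fun l => e (J l)) ≠ 0 →
      ∃ N : ℕ, 0 < N ∧ (∏ l, val π (J l)) ^ N = ((q : ℂ) ^ m) ^ N := by
    intro m ψ hψ J hJ
    obtain ⟨Δ, hΔ, hφ⟩ := hD m ψ hψ (exk b ψ) (fun v => exk_one b ψ v)
    obtain ⟨N, hN, -, hNΔ⟩ := Subgroup.exists_pow_mem_of_index_ne_zero hΔ.index_ne_zero γ
    have h1 := transport j b (f := ρ (γ ^ N)) (c := χ (γ ^ N) ^ m) (hφ (γ ^ N) hNΔ)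
      (fun l => e (J l))
    rw [map_pow ρ, mk_pow] at h1
    simp only [he'] at h1
    rw [MultilinearMap.map_smul_univ, smul_eq_mul] at h1
    have h2 := mul_right_cancel₀ hJ h1
    refine ⟨N, hN, ?_⟩
    rw [← Finset.prod_pow, h2, map_pow χ, map_pow, map_pow, hχ, map_ratCast, ← pow_mul, ← pow_mul,
      mul_comm]
  let v : (Σ i, (K i →+* ℂ)) → ℂˣ := fun x => Units.mk0 (val π x) (hv0 x)
  let c : ℂˣ := Units.mk0 (q : ℂ) hq0
  let S : Set (((Σ i, (K i →+* ℂ)) → ℤ) × ℤ) :=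
    {s | ∃ (m : ℕ) (ψ : MultilinearMap ℚ (fun _ : Fin m × Fin 2 => H) ℚ)
      (J : Fin m × Fin 2 → (Σ i, (K i →+* ℂ))), IsHodgeTensor per ψ ∧
      ex b ψ (fun l => e (J l)) ≠ 0 ∧
      s = (fun x => (((Finset.univ.filter (fun l => J l = x)).card : ℕ) : ℤ), -(m : ℤ))}
  have hmono : ∀ (m : ℕ) (J : Fin m × Fin 2 → (Σ i, (K i →+* ℂ))) (N : ℕ),
      mono v c (fun x => (((Finset.univ.filter (fun l => J l = x)).card : ℕ) : ℤ),
        -(m : ℤ)) ^ N = 1 ↔ (∏ l, val π (J l)) ^ N = ((q : ℂ) ^ m) ^ N := by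
    intro m J N
    unfold mono
    rw [prod_word v J, _root_.zpow_neg, zpow_natCast, mul_pow, inv_pow, mul_inv_eq_one, ← Units.val_inj]
    push_cast
    exact Iff.rfl
  obtain ⟨N, hN, hNS⟩ := exists_uniform v c S (by
    rintro s ⟨m, ψ, J, hψ, hJ, rfl⟩
    obtain ⟨N, hN, h1⟩ := hword m ψ hψ J hJ
    exact ⟨N, hN, (hmono m J N).2 h1⟩)
  have hall : ∀ (m : ℕ) (ψ : MultilinearMap ℚ (fun _ : Fin m × Fin 2 => H) ℚ),
      IsHodgeTensor per ψ → ∀ J : Fin m × Fin 2 → (Σ i, (K i →+* ℂ)),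
      ex b ψ (fun l => e (J l)) ≠ 0 → (∏ l, val π (J l)) ^ N = ((q : ℂ) ^ m) ^ N :=
    fun m ψ hψ J hJ => (hmono m J N).1 (hNS _ ⟨m, ψ, J, hψ, hJ, rfl⟩)
  let g : (Matrix (Fin n) (Fin n) ℂ)ˣ := ⟨mk j b (ρ γ) ^ N, mk j b (ρ γ⁻¹) ^ N, by
      rw [← mk_pow, ← mk_pow, ← mk_mul, ← map_pow ρ, ← map_pow ρ, ← map_mul ρ, inv_pow,
        mul_inv_cancel, map_one, mk_one], by
      rw [← mk_pow, ← mk_pow, ← mk_mul, ← map_pow ρ, ← map_pow ρ, ← map_mul ρ, inv_pow,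
        inv_mul_cancel, map_one, mk_one]⟩
  have hg : (g, c ^ N) ∈ GG (pj b') := by
    intro m φ hφ w
    obtain ⟨ψ, rfl⟩ := exists_ex b hφ.1
    have hψ := (hodge_iff per b b' hb ψ).2 hφ.2
    let F : Frm (Fin m × Fin 2) (Fin n) :=
      (ex b ψ).compLinearMap (fun _ => (mk j b (ρ γ) ^ N).mulVecLin)
    have hF : F = ((q : ℂ) ^ N) ^ m • ex b ψ := by
      refine Basis.ext_multilinear (fun _ => e) fun J => ?_
      change ex b ψ (fun l => (mk j b (ρ γ) ^ N) *ᵥ e (J l)) =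
        ((q : ℂ) ^ N) ^ m * ex b ψ (fun l => e (J l))
      simp only [he']
      rw [MultilinearMap.map_smul_univ, smul_eq_mul]
      by_cases h0 : ex b ψ (fun l => e (J l)) = 0
      · rw [h0, mul_zero, mul_zero]
      · rw [Finset.prod_pow, hall m ψ hψ J h0, ← pow_mul, ← pow_mul, mul_comm N m]
    have h1 := congrArg (fun f : Frm (Fin m × Fin 2) (Fin n) => f w) hF
    refine h1.trans ?_
    rw [Units.val_pow_eq_pow_val]
    rfl
  refine ⟨e, N, ⟨(g, c ^ N), hg⟩, hN, ⟨GP.bar_bar, GP.bar_ne, fun x => he' N x, pow_ne_zero _ hq0,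
    fun x => ?_, ?_, four_bar K hq.ne' π hweil le_rfl hsf hN⟩, hall⟩
  · rw [← mul_pow, val_barC K hweil (RingHom.id ℂ) x]
  · rw [chi_apply]
    change ((c ^ N : ℂˣ) : ℂ) = _
    rw [Units.val_pow_eq_pow_val]
    rfl

end frob

end

end Pool.Agent.Q43.FS
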