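import Pool.Agent.Q43.FS.St

/-!
# The action of the automorphisms of the complex numbers on the eigenvalues of the endomorphisms
-/

set_option autoImplicit false
set_option linter.unusedSectionVars false

namespace Pool.Agent.Q43.FS

open Module Matrix Pool.Agent.H204R3.CM Pool.Agent.H204R3.SP Pool.Agent.H204R3.GP
  Pool.Agent.W516.MTD Pool.Agent.W516.FT Pool.Agent.Q43.HL

noncomputable section

variable {n : ℕ} {H T : Type} [AddCommGroup H] [Module ℚ H] [AddCommGroup T] [Module ℂ T]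
  (per : H →+ T) (b : Basis (Fin n) ℚ H) (b' : Basis (Fin n) ℝ T) (hb : ∀ i, b' i = per (b i))
  {ω₀ : H →ₗ[ℚ] H →ₗ[ℚ] ℚ} (hR : IsRiemannForm per ω₀)
  {R : Type} [Fintype R] [DecidableEq R] (e : Basis R ℂ (Fin n → ℂ)) {inv : R → R}
  {a : R → ℂ} {q : ℂ} {γ : GG (pj b')} (hs : Sp b' e inv a q γ)

/-- The eigenvalue of an endomorphism at a vector of the basis. -/
def evl (P : H →ₗ[ℚ] H) (x : R) : ℂ := e.repr (mQ b P *ᵥ e x) x

theorem evl_of {P : H →ₗ[ℚ] H} {x : R} {c : ℂ} (h : mQ b P *ᵥ e x = c • e x) :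
    evl b e P x = c := by
  unfold evl
  rw [h, map_smul, Finsupp.smul_apply, Basis.repr_self, Finsupp.single_eq_same, smul_eq_mul,
    mul_one]

theorem evl_sum {κ : Type} (s : Finset κ) (t : κ → ℚ) (P : κ → (H →ₗ[ℚ] H)) (x : R) :
    evl b e (∑ i ∈ s, t i • P i) x = ∑ i ∈ s, (t i : ℂ) * evl b e (P i) x := by
  unfold evl
  rw [mQ_sum, Matrix.sum_mulVec, map_sum, Finsupp.finsetSum_apply]
  refine Finset.sum_congr rfl fun i _ => ?_
  rw [Matrix.smul_mulVec, map_smul, Finsupp.smul_apply, smul_eq_mul]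

include hb hR hs in
theorem evl_eq {P : H →ₗ[ℚ] H} (hP : IsHodgeEnd per P) (x : R) :
    mQ b P *ᵥ e x = evl b e P x • e x := by
  obtain ⟨c, hc⟩ := hs.end_diag per b b' hb hR e hP x
  rw [evl_of b e hc]
  exact hc

/-- The characteristic polynomial of a diagonal matrix. -/
theorem charpoly_diagE {M : Matrix (Fin n) (Fin n) ℂ} {lam : R → ℂ}
    (h : ∀ x, M *ᵥ e x = lam x • e x) :
    M.charpoly = ∏ x, (Polynomial.X - Polynomial.C (lam x)) := by
  classical
  have h1 : LinearMap.toMatrix e e M.mulVecLin = Matrix.diagonal lam := by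
    ext x y
    rw [LinearMap.toMatrix_apply, mulVecLin_apply, h, map_smul, Finsupp.smul_apply,
      Basis.repr_self, smul_eq_mul]
    by_cases hxy : x = y
    · subst hxy
      rw [Finsupp.single_eq_same, Matrix.diagonal_apply_eq, mul_one]
    · rw [Finsupp.single_eq_of_ne hxy, Matrix.diagonal_apply_ne _ hxy, mul_zero]
  rw [← Matrix.charpoly_diagonal, ← h1, LinearMap.charpoly_toMatrix]
  have h4 := Matrix.charpoly_toLin' M
  rw [← h4]
  rfl

theorem mult_diagE {M : Matrix (Fin n) (Fin n) ℂ} {lam : R → ℂ}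
    (h : ∀ x, M *ᵥ e x = lam x • e x) (z : ℂ) :
    M.charpoly.rootMultiplicity z = (Finset.univ.filter (fun x => lam x = z)).card := by
  rw [charpoly_diagE e h, ← Polynomial.count_roots]
  have h1 : (∏ x, (Polynomial.X - Polynomial.C (lam x))).roots = Finset.univ.val.map lam := by
    have h2 : ∏ x, (Polynomial.X - Polynomial.C (lam x)) =
        ((Finset.univ.val.map lam).map fun a => Polynomial.X - Polynomial.C a).prod := by
      rw [Multiset.map_map]
      rfl
    rw [h2, Polynomial.roots_multiset_prod_X_sub_C]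
  rw [h1, Multiset.count_map]
  rw [Finset.card_def, Finset.filter_val]
  congr 1
  refine Multiset.filter_congr fun x _ => ?_
  exact eq_comm

/-- The multiplicities of conjugate eigenvalues are equal. -/
theorem mult_conj (P : H →ₗ[ℚ] H) (σ : ℂ ≃+* ℂ) (z : ℂ) :
    (mQ b P).charpoly.rootMultiplicity (σ z) = (mQ b P).charpoly.rootMultiplicity z := by
  have h1 := Polynomial.eq_rootMultiplicity_map (p := (mQ b P).charpoly)
    (f := (σ : ℂ →+* ℂ)) σ.injective z
  have h2 : (mQ b P).charpoly.map (σ : ℂ →+* ℂ) = (mQ b P).charpoly := by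
    rw [← Matrix.charpoly_map]
    congr 1
    exact mQ_rat b P σ
  rw [h2] at h1
  exact h1.symm

/-- The eigenvalues at `y` are the conjugates of the eigenvalues at `x`. -/
def GR (σ : ℂ ≃+* ℂ) (x y : R) : Prop :=
  ∀ P : H →ₗ[ℚ] H, IsHodgeEnd per P → evl b e P y = σ (evl b e P x)

/-- All endomorphisms have the same eigenvalue. -/
def ER (x y : R) : Prop := ∀ P : H →ₗ[ℚ] H, IsHodgeEnd per P → evl b e P y = evl b e P x

include hb hR hs in
theorem exists_gr (σ : ℂ ≃+* ℂ) (x : R) : ∃ y, GR per b e σ x y := by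
  classical
  by_contra h
  unfold GR at h
  push Not at h
  choose P hP hne using h
  obtain ⟨t, ht⟩ := exists_generic (fun y z : R => evl b e (P z) y - σ (evl b e (P z) x))
    (fun y h0 => hne y (sub_eq_zero.1 (congrFun h0 y)))
  let Q : H →ₗ[ℚ] H := ∑ z : R, t z • P z
  have hQ : IsHodgeEnd per Q := end_sum per _ _ _ hP
  have h1 : ∀ y, evl b e Q y ≠ σ (evl b e Q x) := by
    intro y h0
    apply ht y
    have h2 : ∀ y, evl b e Q y = ∑ z : R, (t z : ℂ) * evl b e (P z) y := fun y => evl_sum b e _ _ _ y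
    rw [h2, h2, map_sum] at h0
    rw [← sub_eq_zero.2 h0, ← Finset.sum_sub_distrib]
    refine Finset.sum_congr rfl fun z _ => ?_
    rw [map_mul, map_ratCast, mul_sub]
  have h2 := mult_conj b Q σ (evl b e Q x)
  rw [mult_diagE e (evl_eq per b b' hb hR e hs hQ), mult_diagE e (evl_eq per b b' hb hR e hs hQ)] at h2
  have h3 : 0 < (Finset.univ.filter (fun y => evl b e Q y = evl b e Q x)).card :=
    Finset.card_pos.2 ⟨x, Finset.mem_filter.2 ⟨Finset.mem_univ _, rfl⟩⟩
  rw [← h2] at h3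
  obtain ⟨y, hy⟩ := Finset.card_pos.1 h3
  exact h1 y (Finset.mem_filter.1 hy).2

/-- A generic endomorphism. -/
theorem exists_gen : ∃ P : H →ₗ[ℚ] H, IsHodgeEnd per P ∧
    ∀ x y, evl b e P y = evl b e P x → ER per b e x y := by
  classical
  let μ : Type := {p : R × R // ∃ Q : H →ₗ[ℚ] H, IsHodgeEnd per Q ∧ evl b e Q p.2 ≠ evl b e Q p.1}
  choose Q hQ hne using fun p : μ => p.2
  obtain ⟨t, ht⟩ := exists_generic (κ := μ) (μ := μ)
    (fun p z => evl b e (Q z) p.1.2 - evl b e (Q z) p.1.1)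
    (fun p h0 => hne p (sub_eq_zero.1 (congrFun h0 p)))
  refine ⟨∑ z : μ, t z • Q z, end_sum per _ _ _ hQ, fun x y h => ?_⟩
  intro P hP
  by_contra h0
  apply ht ⟨(x, y), P, hP, h0⟩
  rw [evl_sum, evl_sum] at h
  rw [← sub_eq_zero.2 h, ← Finset.sum_sub_distrib]
  refine Finset.sum_congr rfl fun z _ => ?_
  rw [mul_sub]

section gen

variable {P₀ : H →ₗ[ℚ] H} (hP₀ : IsHodgeEnd per P₀)
  (hgen : ∀ x y, evl b e P₀ y = evl b e P₀ x → ER per b e x y)

include hb hR hs hP₀ hgen in
theorem gr_iff (σ : ℂ ≃+* ℂ) (x y : R) :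
    GR per b e σ x y ↔ evl b e P₀ y = σ (evl b e P₀ x) := by
  constructor
  · intro h
    exact h P₀ hP₀
  · intro h
    obtain ⟨z, hz⟩ := exists_gr per b b' hb hR e hs σ x
    have h1 : ER per b e z y := hgen z y (h.trans (hz P₀ hP₀).symm)
    intro P hP
    rw [h1 P hP, hz P hP]

/-- The polynomial which isolates a value. -/
theorem exists_poly (f : R → ℂ) (x : R) : ∃ p : Polynomial ℂ,
    ∀ y, p.eval (f y) = if f y = f x then 1 else 0 := by
  classical
  let S : Finset ℂ := (Finset.univ.image f).erase (f x)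
  let d : ℂ := ∏ v ∈ S, (f x - v)
  have hd : d ≠ 0 := Finset.prod_ne_zero_iff.2 fun v hv =>
    sub_ne_zero.2 (Finset.ne_of_mem_erase hv).symm
  refine ⟨Polynomial.C d⁻¹ * ∏ v ∈ S, (Polynomial.X - Polynomial.C v), fun y => ?_⟩
  rw [Polynomial.eval_mul, Polynomial.eval_C, Polynomial.eval_prod]
  simp only [Polynomial.eval_sub, Polynomial.eval_X, Polynomial.eval_C]
  split_ifs with h
  · rw [h]
    exact inv_mul_cancel₀ hd
  · have h1 : f y ∈ S := Finset.mem_erase.2 ⟨h, Finset.mem_image_of_mem f (Finset.mem_univ y)⟩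
    rw [Finset.prod_eq_zero h1 (sub_self _), mul_zero]

omit [DecidableEq R] [Fintype R] in
theorem aeval_diag {M : Matrix (Fin n) (Fin n) ℂ} {x : R} {c : ℂ} (h : M *ᵥ e x = c • e x)
    (p : Polynomial ℂ) : (Polynomial.aeval M p) *ᵥ e x = p.eval c • e x := by
  induction p using Polynomial.induction_on' with
  | add p q hp hq => rw [map_add, Matrix.add_mulVec, hp, hq, Polynomial.eval_add, add_smul]
  | monomial k c' =>
    rw [Polynomial.aeval_monomial, Polynomial.eval_monomial]
    have h1 : (M ^ k) *ᵥ e x = c ^ k • e x := by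
      induction k with
      | zero => rw [pow_zero, pow_zero, Matrix.one_mulVec, one_smul]
      | succ k ih =>
        rw [pow_succ, ← Matrix.mulVec_mulVec, h, Matrix.mulVec_smul, ih, smul_smul, pow_succ,
          mul_comm]
    rw [← Matrix.mulVec_mulVec, h1, Matrix.mulVec_smul]
    have h2 : (algebraMap ℂ (Matrix (Fin n) (Fin n) ℂ)) c' *ᵥ e x = c' • e x := by
      rw [Algebra.algebraMap_eq_smul_one, Matrix.smul_mulVec, Matrix.one_mulVec]
    rw [h2, smul_smul, mul_comm]

theorem aeval_conj (P : H →ₗ[ℚ] H) (σ : ℂ ≃+* ℂ) (p : Polynomial ℂ) :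
    (Polynomial.aeval (mQ b P) p).map σ = Polynomial.aeval (mQ b P) (p.map (σ : ℂ →+* ℂ)) := by
  have hpow : ∀ k : ℕ, ((mQ b P) ^ k).map σ = (mQ b P) ^ k := by
    intro k
    have h1 := Matrix.map_pow (f := (σ : ℂ →+* ℂ)) (M := mQ b P) (a := k)
    refine h1.trans ?_
    congr 1
    exact mQ_rat b P σ
  induction p using Polynomial.induction_on' with
  | add p q hp hq =>
    rw [map_add, Polynomial.map_add, map_add, ← hp, ← hq]
    exact Matrix.map_add (σ : ℂ → ℂ) (map_add σ) _ _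
  | monomial k c =>
    rw [Polynomial.map_monomial, Polynomial.aeval_monomial, Polynomial.aeval_monomial,
      Algebra.algebraMap_eq_smul_one, Algebra.algebraMap_eq_smul_one, smul_mul_assoc, one_mul,
      smul_mul_assoc, one_mul]
    ext i j
    rw [Matrix.map_apply, Matrix.smul_apply, Matrix.smul_apply, smul_eq_mul, smul_eq_mul, map_mul]
    have h1 := congrFun (congrFun (hpow k) i) j
    rw [Matrix.map_apply] at h1
    rw [h1]
    rfl

include hb hR hs hP₀ hgen in
/-- Words of Hodge tensors can be conjugated. -/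
theorem exists_word {κ : Type} [Fintype κ] [DecidableEq κ] (σ : ℂ ≃+* ℂ)
    (ψ : MultilinearMap ℚ (fun _ : κ => H) ℚ) (I : κ → R) (hI : ex b ψ (fun k => e (I k)) ≠ 0) :
    ∃ J : κ → R, ex b ψ (fun k => e (J k)) ≠ 0 ∧ ∀ k, GR per b e σ (I k) (J k) := by
  classical
  choose p hp using fun x => exists_poly (evl b e P₀) x
  let E : κ → Matrix (Fin n) (Fin n) ℂ := fun k => Polynomial.aeval (mQ b P₀) (p (I k))
  have hE : ∀ k y, E k *ᵥ e y = (if evl b e P₀ y = evl b e P₀ (I k) then (1 : ℂ) else 0) • e y := by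
    intro k y
    rw [← hp]
    exact aeval_diag e (evl_eq per b b' hb hR e hs hP₀ y) _
  have hEσ : ∀ k y, (E k).map σ *ᵥ e y =
      (if evl b e P₀ y = σ (evl b e P₀ (I k)) then (1 : ℂ) else 0) • e y := by
    intro k y
    change (Polynomial.aeval (mQ b P₀) (p (I k))).map σ *ᵥ e y = _
    rw [aeval_conj, aeval_diag e (evl_eq per b b' hb hR e hs hP₀ y)]
    congr 1
    obtain ⟨z, hz⟩ := exists_gr per b b' hb hR e hs σ.symm y
    have h1 : evl b e P₀ y = σ (evl b e P₀ z) := by
      rw [hz P₀ hP₀, RingEquiv.apply_symm_apply]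
    rw [h1]
    have h2 := Polynomial.eval_map_apply (f := (σ : ℂ →+* ℂ)) (p := p (I k)) (evl b e P₀ z)
    refine (h2.trans ?_)
    rw [hp]
    by_cases h3 : evl b e P₀ z = evl b e P₀ (I k)
    · rw [if_pos h3, if_pos (by rw [h3])]
      exact map_one _
    · rw [if_neg h3, if_neg (fun h4 => h3 (σ.injective h4))]
      exact map_zero _
  let F : Frm κ (Fin n) := (ex b ψ).compLinearMap (fun k => ((E k).map σ).mulVecLin)
  have hF : F (fun k i => σ (e (I k) i)) ≠ 0 := by
    change ex b ψ (fun k => (E k).map σ *ᵥ fun i => σ (e (I k) i)) ≠ 0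
    have h1 : (fun k => (E k).map σ *ᵥ fun i => σ (e (I k) i)) =
        fun k i => σ ((E k *ᵥ e (I k)) i) := funext fun k => (conj_mulVec σ (E k) (e (I k))).symm
    rw [h1]
    have h2 : cj σ (ex b ψ) = ex b ψ := cj_rat σ (ex_rat b ψ)
    rw [← h2, cj_apply]
    intro h3
    apply hI
    have h4 : (fun k => E k *ᵥ e (I k)) = fun k => e (I k) := by
      funext k
      rw [hE, if_pos rfl, one_smul]
    rw [h4] at h3
    exact (map_eq_zero_iff σ σ.injective).1 h3
  obtain ⟨J, hJ⟩ : ∃ J : κ → R, F (fun k => e (J k)) ≠ 0 := by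
    by_contra h
    push Not at h
    apply hF
    have h1 : F = 0 := Basis.ext_multilinear (fun _ => e) fun J => h J
    rw [h1]
    rfl
  have h1 : F (fun k => e (J k)) = ex b ψ (fun k =>
      (if evl b e P₀ (J k) = σ (evl b e P₀ (I k)) then (1 : ℂ) else 0) • e (J k)) := by
    change ex b ψ (fun k => (E k).map σ *ᵥ e (J k)) = _
    congr 1
    funext k
    exact hEσ k (J k)
  rw [h1, MultilinearMap.map_smul_univ, smul_eq_mul] at hJ
  refine ⟨J, right_ne_zero_of_mul hJ, fun k => ?_⟩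
  rw [gr_iff per b b' hb hR e hs hP₀ hgen]
  by_contra h2
  apply left_ne_zero_of_mul hJ
  exact Finset.prod_eq_zero (Finset.mem_univ k) (if_neg h2)

end gen

end

end Pool.Agent.Q43.FS
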