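import Pool.Agent.Q43.FS.Ga

/-!
# The Galois representation on the excesses
-/

set_option autoImplicit false
set_option linter.unusedSectionVars false

namespace Pool.Agent.Q43.FS

open Module Matrix Pool.Agent.H204R3.CM Pool.Agent.H204R3.SP Pool.Agent.H204R3.GP
  Pool.Agent.W516.MTD Pool.Agent.W516.FT Pool.Agent.Q43.HL

noncomputable section

/-- The sum of the excesses over a class. -/
theorem dl_key {R Q κ : Type} [Fintype R] [DecidableEq R] [DecidableEq Q] [Fintype κ]
    {inv : R → R} (hinv : ∀ x, inv (inv x) = x) (cls : R → Q) (J : κ → R)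
    (hJ : ∀ x y, cls x = cls y → dl inv J x = dl inv J y) (y : R) :
    ((Finset.univ.filter (fun z => cls z = cls y)).card : ℤ) * dl inv J y =
      ((Finset.univ.filter (fun k => cls (J k) = cls y)).card : ℤ) -
      (Finset.univ.filter (fun k => cls (inv (J k)) = cls y)).card := by
  have h1 : ∑ z ∈ Finset.univ.filter (fun z => cls z = cls y), dl inv J z =
      ((Finset.univ.filter (fun z => cls z = cls y)).card : ℤ) * dl inv J y := by
    rw [Finset.sum_congr rfl (fun z hz => hJ z y (Finset.mem_filter.1 hz).2), Finset.sum_const,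
      nsmul_eq_mul]
  rw [← h1]
  unfold dl
  rw [Finset.sum_sub_distrib]
  have h2 : ∀ f : κ → R, ∑ z ∈ Finset.univ.filter (fun z => cls z = cls y),
      ((Finset.univ.filter (fun k => f k = z)).card : ℤ) =
      ((Finset.univ.filter (fun k => cls (f k) = cls y)).card : ℤ) := by
    intro f
    rw [← Nat.cast_sum]
    congr 1
    rw [Finset.card_eq_sum_card_fiberwise (f := f)
      (t := Finset.univ.filter (fun z => cls z = cls y))]
    · refine Finset.sum_congr rfl fun z hz => ?_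
      congr 1
      ext k
      simp only [Finset.mem_filter, Finset.mem_univ, true_and]
      constructor
      · rintro rfl
        exact ⟨(Finset.mem_filter.1 hz).2, rfl⟩
      · exact fun h => h.2
    · intro k hk
      rw [Finset.mem_coe, Finset.mem_filter] at hk ⊢
      exact ⟨Finset.mem_univ _, hk.2⟩
  rw [h2 J]
  congr 1
  rw [← h2 (fun k => inv (J k))]
  refine Finset.sum_congr rfl fun z _ => ?_
  congr 2
  ext k
  simp only [Finset.mem_filter, Finset.mem_univ, true_and]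
  constructor
  · intro h3
    rw [h3, hinv]
  · intro h3
    rw [← h3, hinv]

variable {n : ℕ} {H T : Type} [AddCommGroup H] [Module ℚ H] [AddCommGroup T] [Module ℂ T]
  (per : H →+ T) (b : Basis (Fin n) ℚ H) (b' : Basis (Fin n) ℝ T) (hb : ∀ i, b' i = per (b i))
  {ω₀ : H →ₗ[ℚ] H →ₗ[ℚ] ℚ} (hR : IsRiemannForm per ω₀)
  {R : Type} [Fintype R] [DecidableEq R] (e : Basis R ℂ (Fin n → ℂ)) {inv : R → R}
  {a : R → ℂ} {q : ℂ} {γ : GG (pj b')} (hs : Sp b' e inv a q γ)

include hb hR in
/-- The adjoint endomorphism. -/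
theorem exists_adj {P : H →ₗ[ℚ] H} (hP : IsHodgeEnd per P) :
    ∃ Q : H →ₗ[ℚ] H, IsHodgeEnd per Q ∧ ∀ v w : Fin n → ℂ,
      om b ω₀ (mQ b Q *ᵥ v) w = om b ω₀ (mQ b P *ᵥ w) v := by
  have hHB : IsHodgeBilinear per ω₀ := by
    obtain ⟨F, h1, h2, -, -⟩ := hR
    exact ⟨F, h1, h2⟩
  obtain ⟨Q, hQ1, hQ2⟩ := end_of_hodge per b b' hb hR (flip_hodge per (hodge_of_end per hHB hP))
  refine ⟨Q, hQ1, fun v w => ?_⟩
  rw [← om_comp, ← om_comp, hQ2]
  have h1 : om b (ω₀.comp P).flip = (om b (ω₀.comp P)).flip := by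
    refine bilin_ext b fun i j => ?_
    rw [om_cpr, LinearMap.flip_apply, LinearMap.flip_apply, om_cpr]
  rw [h1, LinearMap.flip_apply]

include hb hR hs in
theorem evl_adj {P Q : H →ₗ[ℚ] H} (hP : IsHodgeEnd per P) (hQ : IsHodgeEnd per Q)
    (h : ∀ v w : Fin n → ℂ, om b ω₀ (mQ b Q *ᵥ v) w = om b ω₀ (mQ b P *ᵥ w) v) (x : R) :
    evl b e Q x = - evl b e P (inv x) := by
  have hpol := isPol_of per b b' hb hR
  have h1 := h (e x) (e (inv x))
  rw [evl_eq per b b' hb hR e hs hP, evl_eq per b b' hb hR e hs hQ, map_smul, map_smul,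
    LinearMap.smul_apply, LinearMap.smul_apply, hpol.anti (e (inv x)) (e x), smul_eq_mul,
    smul_eq_mul] at h1
  have h2 := hs.jj_ne per b b' hb hR e x
  have h3 : (evl b e Q x + evl b e P (inv x)) * om b ω₀ (e x) (e (inv x)) = 0 := by
    linear_combination h1
  exact eq_neg_of_add_eq_zero_left ((mul_eq_zero.1 h3).resolve_right h2)

include hb hR hs in
theorem gr_inv {σ : ℂ ≃+* ℂ} {x y : R} (h : GR per b e σ x y) :
    GR per b e σ (inv x) (inv y) := by
  intro P hP
  obtain ⟨Q, hQ1, hQ2⟩ := exists_adj per b b' hb hR hP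
  have h1 := evl_adj per b b' hb hR e hs hP hQ1 hQ2
  have h2 := h Q hQ1
  rw [h1, h1, map_neg] at h2
  exact neg_injective h2

include hb hR hs in
/-- The Rosati involution is positive: complex conjugation. -/
theorem gr_cc (x : R) : GR per b e cc x (inv x) := by
  have hpol := isPol_of per b b' hb hR
  intro P hP
  have hHB : IsHodgeBilinear per ω₀ := by
    obtain ⟨F, h1, h2, -, -⟩ := hR
    exact ⟨F, h1, h2⟩
  obtain ⟨Q, hQ1, hQ2⟩ := exists_adj per b b' hb hR hP
  have hI0 : Complex.I ≠ 0 := Complex.I_ne_zero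
  have hinvB : ∀ u v, om b ω₀ (mQ b P *ᵥ (hz (pj b') Complex.I *ᵥ u)) (hz (pj b') Complex.I *ᵥ v) =
      om b ω₀ (mQ b P *ᵥ u) v := by
    intro u v
    have h1 : Bal (pj b') (bf (om b (ω₀.comp P))) := by
      rw [bf_om]
      exact (hodge_iff per b b' hb _).1
        ((hodge2_tensor per b b' hb _).2 (hodge_of_end per hHB hP))
    have h2 := bal_hz (pj_idem b') h1 hI0 (pr u v)
    rw [bf_apply, bf_apply] at h2
    have h3 : ∀ w : Fin n → ℂ, ∀ w' : Fin n → ℂ, pr w w' (0, 0) = w := fun w w' => if_pos rfl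
    have h4 : ∀ w : Fin n → ℂ, ∀ w' : Fin n → ℂ, pr w w' (0, 1) = w' :=
      fun w w' => if_neg (by decide)
    rw [h3, h4, om_comp, om_comp] at h2
    exact h2
  set v := e x with hv
  set w : Fin n → ℂ := fun i => cc (e x i) with hw
  set J := hz (pj b') Complex.I with hJ
  have hcomm : om b ω₀ (J *ᵥ (mQ b P *ᵥ v)) w = om b ω₀ (mQ b P *ᵥ (J *ᵥ v)) w := by
    have h1 : J *ᵥ (hz (pj b') Complex.I⁻¹ *ᵥ w) = w := hz_cancel (pj_idem b') hI0 w
    have h2 := hinvB v (hz (pj b') Complex.I⁻¹ *ᵥ w)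
    have h3 := hpol.invP hI0 (mQ b P *ᵥ v) (hz (pj b') Complex.I⁻¹ *ᵥ w)
    rw [h1] at h2
    rw [← hJ, h1] at h3
    rw [h2, h3]
  have hne : om b ω₀ (J *ᵥ v) w ≠ 0 := by
    intro h0
    have h1 := hpol.pos v (e.ne_zero x)
    rw [← hJ] at h1
    change 0 < (om b ω₀ (J *ᵥ v) w).re at h1
    rw [h0] at h1
    exact lt_irrefl _ h1
  have hPv : mQ b P *ᵥ v = evl b e P x • v := evl_eq per b b' hb hR e hs hP x
  have hQv : mQ b Q *ᵥ v = evl b e Q x • v := evl_eq per b b' hb hR e hs hQ1 x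
  have hQw : mQ b Q *ᵥ w = cc (evl b e Q x) • w := by
    rw [hw, mQ_conj, ← hv, hQv]
    funext i
    rw [Pi.smul_apply, Pi.smul_apply, smul_eq_mul, smul_eq_mul, map_mul]
  rw [hPv, Matrix.mulVec_smul, map_smul, LinearMap.smul_apply, smul_eq_mul, ← hQ2, hQw, map_smul,
    LinearMap.smul_apply, smul_eq_mul, hpol.anti w (J *ᵥ v)] at hcomm
  have h1 : evl b e P x = - cc (evl b e Q x) := by
    apply mul_right_cancel₀ hne
    rw [hcomm]
    ring
  have h2 := evl_adj per b b' hb hR e hs hP hQ1 hQ2 x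
  rw [h2, map_neg, neg_neg] at h1
  rw [h1]
  exact (Complex.conj_conj _).symm

include hb hR hs in
/-- Indices with the same eigenvalues have the same excesses. -/
theorem er_wf {x y : R} (h : ER per b e x y) : WF per b e inv x y := by
  classical
  have hpol := isPol_of per b b' hb hR
  let S : Setoid R :=
    { r := WF per b e inv
      iseqv :=
        { refl := wf_refl per b e inv
          symm := wf_symm per b e inv
          trans := wf_trans per b e inv } }
  let bk : R → Quotient S := Quotient.mk S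
  have hbk : ∀ x y, bk x = bk y ↔ WF per b e inv x y := fun x y => Quotient.eq
  let c : R → ℂ := fun z => if bk x = bk z then 1 else 0
  have h1 : AlmostEquivariant (rho (pj b')) (dg e c) :=
    dg_block e (inv := inv)
    (jj := fun x => om b ω₀ (e x) (e (inv x))) hs.inv_inv hs.ne
    (hs.jj_anti per b b' hb hR e) (hs.jj_ne per b b' hb hR e)
    (om b ω₀) (hs.om_pair per b b' hb hR e) (rho (pj b')) (chi (pj b'))
    hpol.sim hpol.hasProj hs.eig hs.q0 hs.mul hs.mlt hs.four bk
    (fun x y h => (hbk x y).2 (tate_wf per b b' e inv hb fun m φ hφ I hI => h m φ hφ I hI)) c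
    (fun y z hyz => by
      change (if bk x = bk y then (1 : ℂ) else 0) = if bk x = bk z then 1 else 0
      rw [hyz])
  have h2 : ∀ L ∈ Submodule.span ℂ {P' : (Fin n → ℂ) →ₗ[ℂ] (Fin n → ℂ) | ∃ Q : H →ₗ[ℚ] H,
      IsHodgeEnd per Q ∧ P' = (mQ b Q).mulVecLin}, e.repr (L (e y)) y = e.repr (L (e x)) x := by
    intro L hL
    induction hL using Submodule.span_induction with
    | mem L hL =>
      obtain ⟨Q, hQ, rfl⟩ := hL
      exact h Q hQ
    | zero => rw [LinearMap.zero_apply, LinearMap.zero_apply, map_zero, Finsupp.zero_apply,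
        Finsupp.zero_apply]
    | add L L' _ _ hL hL' => rw [LinearMap.add_apply, LinearMap.add_apply, map_add, map_add,
        Finsupp.add_apply, Finsupp.add_apply, hL, hL']
    | smul c L _ hL => rw [LinearMap.smul_apply, LinearMap.smul_apply, map_smul, map_smul,
        Finsupp.smul_apply, Finsupp.smul_apply, hL]
  have h3 := h2 _ (ae_span per b b' hb hR h1)
  have h4 : ∀ z, e.repr (dg e c (e z)) z = c z := by
    intro z
    rw [dg_basis, map_smul, Finsupp.smul_apply, Basis.repr_self, Finsupp.single_eq_same,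
      smul_eq_mul, mul_one]
  rw [h4, h4] at h3
  rw [← hbk]
  by_contra h5
  change (if bk x = bk y then (1 : ℂ) else 0) = if bk x = bk x then 1 else 0 at h3
  rw [if_neg h5, if_pos rfl] at h3
  exact zero_ne_one h3

section transport

variable {P₀ : H →ₗ[ℚ] H} (hP₀ : IsHodgeEnd per P₀)
  (hgen : ∀ x y, evl b e P₀ y = evl b e P₀ x → ER per b e x y)

include hb hR hs hP₀ hgen in
/-- The excesses of conjugate words. -/
theorem dl_transport {m : ℕ} {σ : ℂ ≃+* ℂ} {ψ : MultilinearMap ℚ (fun _ : Fin m × Fin 2 => H) ℚ}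
    (hψ : IsHodgeTensor per ψ) {I J : Fin m × Fin 2 → R} (hI : ex b ψ (fun k => e (I k)) ≠ 0)
    (hJ : ex b ψ (fun k => e (J k)) ≠ 0) (hIJ : ∀ k, GR per b e σ (I k) (J k)) {x z : R}
    (hxz : GR per b e σ x z) : dl inv J z = dl inv I x := by
  classical
  have hcon : ∀ K : Fin m × Fin 2 → R, ex b ψ (fun k => e (K k)) ≠ 0 →
      ∀ x y, evl b e P₀ x = evl b e P₀ y → dl inv K x = dl inv K y := by
    intro K hK x y hxy
    exact er_wf per b b' hb hR e hs (hgen x y hxy.symm) m ψ hψ K hK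
  have h1 := dl_key hs.inv_inv (evl b e P₀) I (hcon I hI) x
  have h2 := dl_key hs.inv_inv (evl b e P₀) J (hcon J hJ) z
  have h3 : (Finset.univ.filter (fun y => evl b e P₀ y = evl b e P₀ z)).card =
      (Finset.univ.filter (fun y => evl b e P₀ y = evl b e P₀ x)).card := by
    rw [← mult_diagE e (evl_eq per b b' hb hR e hs hP₀), ← mult_diagE e
      (evl_eq per b b' hb hR e hs hP₀), hxz P₀ hP₀, mult_conj]
  have h4 : ∀ k, evl b e P₀ (J k) = evl b e P₀ z ↔ evl b e P₀ (I k) = evl b e P₀ x := by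
    intro k
    rw [hIJ k P₀ hP₀, hxz P₀ hP₀]
    exact σ.injective.eq_iff
  have h5 : ∀ k, evl b e P₀ (inv (J k)) = evl b e P₀ z ↔
      evl b e P₀ (inv (I k)) = evl b e P₀ x := by
    intro k
    rw [gr_inv per b b' hb hR e hs (hIJ k) P₀ hP₀, hxz P₀ hP₀]
    exact σ.injective.eq_iff
  rw [h3] at h2
  simp only [h4, h5] at h2
  rw [← h1] at h2
  have h6 : (0 : ℤ) < ((Finset.univ.filter (fun y => evl b e P₀ y = evl b e P₀ x)).card : ℤ) := by
    have h7 : x ∈ Finset.univ.filter (fun y => evl b e P₀ y = evl b e P₀ x) :=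
      Finset.mem_filter.2 ⟨Finset.mem_univ _, rfl⟩
    exact_mod_cast Finset.card_pos.2 ⟨x, h7⟩
  exact mul_left_cancel₀ h6.ne' h2

include hb hR hs hP₀ hgen in
theorem wf_conj {σ : ℂ ≃+* ℂ} {x y x' y' : R} (h : WF per b e inv x y)
    (hx : GR per b e σ x' x) (hy : GR per b e σ y' y) : WF per b e inv x' y' := by
  intro m ψ hψ I hI
  obtain ⟨J, hJ, hIJ⟩ := exists_word per b b' hb hR e hs hP₀ hgen σ ψ I hI
  rw [← dl_transport per b b' hb hR e hs hP₀ hgen hψ hI hJ hIJ hx,
    ← dl_transport per b b' hb hR e hs hP₀ hgen hψ hI hJ hIJ hy]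
  exact h m ψ hψ J hJ

end transport

end

end Pool.Agent.Q43.FS
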