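import Pool.Agent.Q43.FS.LdDefs
import Pool.Agent.Q43.RP.Lowf

/-!
# Short relations and the local defects
-/

set_option autoImplicit false
set_option linter.unusedSectionVars false

namespace Pool.Agent.Q43.FS

open NumberField Module Pool.Agent.H204R3.CM Pool.Agent.Q43.RP

noncomputable section

variable {I : Type} [Fintype I] (K : I → Type) [∀ i, Field (K i)] [∀ i, NumberField (K i)]
  [∀ i, IsCMField (K i)]

/-- The action of the automorphisms of the complex numbers on the embeddings of one field. -/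
@[instance_reducible]
def actK (E : Type) [Field E] : MulAction (ℂ ≃+* ℂ) (E →+* ℂ) where
  smul σ φ := (σ : ℂ →+* ℂ).comp φ
  one_smul _ := RingHom.ext fun _ => rfl
  mul_smul _ _ _ := RingHom.ext fun _ => rfl

/-- There are no short relations if the local defects are small. -/
theorem shortFree_local {q : ℚ} (hq : 0 < q) (π : ∀ i, K i)
    (hweil : ∀ i, ∀ φ : K i →+* ℂ, ‖φ (π i)‖ ^ 2 = (q : ℝ)) {k : ℕ}
    (hk : ∀ i, 2 * (k * defectAt K π i) < finrank ℚ (K i)) : ShortFree K q π k := by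
  classical
  intro n hn w s hs h
  by_contra hne
  obtain ⟨⟨i, φ₀⟩, hy⟩ := Function.ne_iff.1 hne
  have hrel : exc (invC K) w ∈ relations K π := by
    exact exc_mem_relSet K (fun _ => q) (fun _ => hq) π hweil w s hs (by
      rw [Finset.prod_const, Finset.card_univ, Fintype.card_fin]
      exact h)
  let _ : MulAction (ℂ ≃+* ℂ) (K i →+* ℂ) := actK (K i)
  let R : Submodule ℤ ((K i →+* ℂ) → ℤ) := Submodule.span ℤ {f : (K i →+* ℂ) → ℤ |
    ∃ a ∈ relations K π, f = fun φ => a ⟨i, φ⟩}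
  have hR : ∀ σ : ℂ ≃+* ℂ, ∀ f ∈ R, (fun y => f (σ • y)) ∈ R := by
    intro σ f hf
    induction hf using Submodule.span_induction with
    | mem x hx =>
      obtain ⟨a, ha, rfl⟩ := hx
      exact Submodule.subset_span ⟨_, relSet_inv K π σ a ha, rfl⟩
    | zero => exact Submodule.zero_mem _
    | add x y _ _ hx hy => exact Submodule.add_mem _ hx hy
    | smul c x _ hx => exact Submodule.smul_mem _ _ hx
  obtain ⟨Kr, hKinv, hKD, hKmem⟩ := exists_realZ (G := ℂ ≃+* ℂ) R hR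
  have heven : finrank ℚ (K i) = 2 * InfinitePlace.nrComplexPlaces (K i) :=
    IsTotallyComplex.finrank (K i)
  have horb : ∀ φ : K i →+* ℂ, 2 * InfinitePlace.nrComplexPlaces (K i) ≤
      (MulAction.orbit (ℂ ≃+* ℂ) φ).ncard := by
    obtain ⟨L, _, _, jj, hL⟩ := exists_galois K
    intro φ
    have h1 : (Set.univ : Set (K i →+* ℂ)) ⊆ MulAction.orbit (ℂ ≃+* ℂ) φ := by
      intro ψ _
      obtain ⟨φ', hφ'⟩ := hL i φ
      obtain ⟨ψ', hψ'⟩ := hL i ψ
      obtain ⟨s, hs⟩ := MulAction.exists_smul_eq (L ≃ₐ[ℚ] L) φ' ψ'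
      obtain ⟨σ, hσ⟩ := Pool.Agent.H977R3.CM.exists_aut jj (s : L ≃+* L)
      refine ⟨σ, ?_⟩
      change (σ : ℂ →+* ℂ).comp φ = ψ
      rw [← hφ', ← hψ', ← hs]
      ext x
      exact hσ _
    refine le_trans ?_ (Set.ncard_le_ncard h1 (Set.toFinite _))
    rw [Set.ncard_univ, Nat.card_eq_fintype_card, Embeddings.card]
    exact heven.ge
  have h2 := uncertainty Kr hKinv horb (fun φ => exc (invC K) w ⟨i, φ⟩)
    (fun h0 => hy (congrFun h0 φ₀))
    (hKmem _ (Submodule.subset_span ⟨_, hrel, rfl⟩))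
  have h3 : ∑ φ : K i →+* ℂ, |(exc (invC K) w ⟨i, φ⟩ : ℝ)| ≤ 2 * n := by
    refine le_trans ?_ (sum_abs_exc (invC_invC K) w)
    have h4 : ∑ y, |(exc (invC K) w y : ℝ)| =
        ∑ i', ∑ φ : K i' →+* ℂ, |(exc (invC K) w ⟨i', φ⟩ : ℝ)| := Fintype.sum_sigma _
    rw [h4]
    exact Finset.single_le_sum (f := fun i' => ∑ φ : K i' →+* ℂ,
      |(exc (invC K) w ⟨i', φ⟩ : ℝ)|) (fun i' _ => Finset.sum_nonneg fun _ _ => abs_nonneg _)
      (Finset.mem_univ i)
  have h4 : (finrank ℝ Kr : ℝ) ≤ (defectAt K π i : ℝ) := by exact_mod_cast hKD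
  have h5 : (2 * InfinitePlace.nrComplexPlaces (K i) : ℝ) ≤ defectAt K π i * (2 * n) := by
    refine h2.trans (mul_le_mul h4 h3 (Finset.sum_nonneg fun _ _ => abs_nonneg _)
      (Nat.cast_nonneg _))
  have h6 : 2 * InfinitePlace.nrComplexPlaces (K i) ≤ defectAt K π i * (2 * n) := by
    exact_mod_cast h5
  have h7 := hk i
  rw [heven] at h7
  have h8 : defectAt K π i * (2 * n) ≤ 2 * (k * defectAt K π i) := by
    have h9 := Nat.mul_le_mul (le_refl (defectAt K π i)) hn
    nlinarith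
  omega

end

end Pool.Agent.Q43.FS
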