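import Pool.Agent.Q43.RP.DefsN

/-!
# The local defects of finitely many Weil numbers
-/

set_option autoImplicit false

namespace Pool.Agent.Q43.FS

open NumberField Module

/-- The defect at `i`: the rank of the lattice generated by the restrictions of the relations between
the conjugates of all the Weil numbers `π j` (modulo the trivial relations, up to roots of unity) to the
set of the conjugates of `π i`. It is zero if no such relation involves a conjugate of `π i`. -/
noncomputable def defectAt {I : Type} [Fintype I] (K : I → Type) [∀ i, Field (K i)]
    [∀ i, NumberField (K i)] (π : ∀ i, K i) (i : I) : ℕ :=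
  finrank ℤ (Submodule.span ℤ {f : (K i →+* ℂ) → ℤ | ∃ a ∈ Pool.Agent.Q43.RP.relations K π,
    f = fun φ => a ⟨i, φ⟩})

end Pool.Agent.Q43.FS
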