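import Pool.Agent.Q43.FS.Rk

/-!
# Large multiplicities
-/

set_option autoImplicit false
set_option linter.unusedSectionVars false

namespace Pool.Agent.Q43.FS

open Module Matrix Pool.Agent.H204R3.CM Pool.Agent.H204R3.SP Pool.Agent.H204R3.GP
  Pool.Agent.W516.MTD Pool.Agent.W516.FT Pool.Agent.Q43.HL

noncomputable section

variable {n : ℕ} {H T : Type} [AddCommGroup H] [Module ℚ H] [AddCommGroup T] [Module ℂ T]
  (per : H →+ T) (b : Basis (Fin n) ℚ H) (b' : Basis (Fin n) ℝ T) (hb : ∀ i, b' i = per (b i))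
  {ω₀ : H →ₗ[ℚ] H →ₗ[ℚ] ℚ} (hR : IsRiemannForm per ω₀)
  {R : Type} [Fintype R] [DecidableEq R] (e : Basis R ℂ (Fin n → ℂ)) {inv : R → R}
  {a : R → ℂ} {q : ℂ} {γ : GG (pj b')} (hs : Sp b' e inv a q γ)

include hb hR hs in
/-- Symmetric Hodge forms are given by central endomorphisms. -/
theorem skew_data {s : H →ₗ[ℚ] H →ₗ[ℚ] ℚ}
    (hs1 : IsHodgeBilinear per s) (hsymm : ∀ x y, s x y = s y x) :
    ∃ (Q : H →ₗ[ℚ] H) (lam : R → ℂ), IsHodgeEnd per Q ∧
      (∀ P : H →ₗ[ℚ] H, IsHodgeEnd per P → Q ∘ₗ P = P ∘ₗ Q) ∧ ω₀.comp Q = s ∧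
      (∀ x, mQ b Q *ᵥ e x = lam x • e x) ∧ (∀ x, lam (inv x) = cc (lam x)) ∧
      ∀ x, lam (inv x) = - lam x := by
  classical
  have hpol := isPol_of per b b' hb hR
  have hHB : IsHodgeBilinear per ω₀ := by
    obtain ⟨F, h1, h2, -, -⟩ := hR
    exact ⟨F, h1, h2⟩
  obtain ⟨Q, hQ1, hQ2⟩ := end_of_hodge per b b' hb hR hs1
  have hdiag : ∀ P : H →ₗ[ℚ] H, IsHodgeEnd per P → ∀ x, ∃ c : ℂ,
      mQ b P *ᵥ e x = c • e x := fun P hP x => hs.end_diag per b b' hb hR e hP x
  have hcomm : ∀ P : H →ₗ[ℚ] H, IsHodgeEnd per P → Q ∘ₗ P = P ∘ₗ Q := by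
    intro P hP
    have h1 : (mQ b Q).mulVecLin ∘ₗ (mQ b P).mulVecLin = (mQ b P).mulVecLin ∘ₗ (mQ b Q).mulVecLin := by
      refine e.ext fun x => ?_
      obtain ⟨c, hc⟩ := hdiag P hP x
      obtain ⟨d, hd⟩ := hdiag Q hQ1 x
      rw [LinearMap.comp_apply, LinearMap.comp_apply, mulVecLin_apply, mulVecLin_apply,
        mulVecLin_apply, mulVecLin_apply, hc, hd, mulVec_smul, mulVec_smul, hc, hd, smul_comm]
    refine LinearMap.ext fun w => ?_
    have h2 := congrArg (fun f : (Fin n → ℂ) →ₗ[ℂ] (Fin n → ℂ) => f (cpr b w)) h1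
    simp only [LinearMap.comp_apply, mulVecLin_apply, mQ_cpr] at h2
    apply b.repr.injective
    ext i
    have h3 := congrFun h2 i
    unfold cpr at h3
    exact_mod_cast h3
  refine ⟨Q, evl b e Q, hQ1, hcomm, hQ2, evl_eq per b b' hb hR e hs hQ1,
    fun x => gr_cc per b b' hb hR e hs x Q hQ1, fun x => ?_⟩
  have h1 : om b s (e x) (e (inv x)) = om b s (e (inv x)) (e x) := by
    rw [om_apply, om_apply, Finset.sum_comm]
    refine Finset.sum_congr rfl fun i _ => Finset.sum_congr rfl fun j _ => ?_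
    rw [hsymm (b j) (b i)]
    ring
  rw [← hQ2, om_comp, om_comp, evl_eq per b b' hb hR e hs hQ1, evl_eq per b b' hb hR e hs hQ1,
    map_smul, map_smul, LinearMap.smul_apply,
    LinearMap.smul_apply, hpol.anti (e (inv x)) (e x), smul_eq_mul, smul_eq_mul] at h1
  have h2 := hs.jj_ne per b b' hb hR e x
  have h3 : (evl b e Q (inv x) + evl b e Q x) * om b ω₀ (e x) (e (inv x)) = 0 := by
    linear_combination h1
  exact eq_neg_of_add_eq_zero_left ((mul_eq_zero.1 h3).resolve_right h2)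

include hb hR hs in
/-- The ranks of the symmetric forms are bounded from below by the multiplicities. -/
theorem rank_lt [FiniteDimensional ℚ H] {m : ℕ}
    (hmult : ∀ P : H →ₗ[ℚ] H, IsHodgeEnd per P →
      (∀ Q : H →ₗ[ℚ] H, IsHodgeEnd per Q → P ∘ₗ Q = Q ∘ₗ P) →
      ∀ z : ℂ, (P.charpoly.map (algebraMap ℚ ℂ)).IsRoot z → z.im ≠ 0 →
        2 * m < (P.charpoly.map (algebraMap ℚ ℂ)).rootMultiplicity z)
    {B : (Fin n → ℂ) →ₗ[ℂ] (Fin n → ℂ) →ₗ[ℂ] ℂ} (hsym : ∀ v w, B v w = B w v)
    (hB : IsTate2 (rho (pj b')) (chi (pj b')) B) (hB0 : B ≠ 0) :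
    4 * m < finrank ℂ (LinearMap.range B) := by
  classical
  have hpol := isPol_of per b b' hb hR
  -- the form is a combination of symmetric Hodge forms
  have h1 : B ∈ Submodule.span ℂ {B' : (Fin n → ℂ) →ₗ[ℂ] (Fin n → ℂ) →ₗ[ℂ] ℂ |
      ∃ s : H →ₗ[ℚ] H →ₗ[ℚ] ℚ, IsHodgeBilinear per s ∧ (∀ x y, s x y = s y x) ∧ B' = om b s} := by
    have h2 := tate2_span per b b' hb hB
    have h3 : ∀ B₁ ∈ Submodule.span ℂ {B' : (Fin n → ℂ) →ₗ[ℂ] (Fin n → ℂ) →ₗ[ℂ] ℂ |
        ∃ β : H →ₗ[ℚ] H →ₗ[ℚ] ℚ, IsHodgeBilinear per β ∧ B' = om b β},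
        B₁ + B₁.flip ∈ Submodule.span ℂ {B' : (Fin n → ℂ) →ₗ[ℂ] (Fin n → ℂ) →ₗ[ℂ] ℂ |
      ∃ s : H →ₗ[ℚ] H →ₗ[ℚ] ℚ, IsHodgeBilinear per s ∧ (∀ x y, s x y = s y x) ∧ B' = om b s} := by
      intro B₁ hB₁
      induction hB₁ using Submodule.span_induction with
      | mem B₁ hB₁ =>
        obtain ⟨β, hβ, rfl⟩ := hB₁
        refine Submodule.subset_span ⟨β + β.flip, add_hodge per hβ (flip_hodge per hβ),
          fun x y => add_comm _ _, ?_⟩
        refine bilin_ext b fun i j => ?_
        rw [LinearMap.add_apply, LinearMap.add_apply, LinearMap.flip_apply, om_cpr, om_cpr, om_cpr,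
          LinearMap.add_apply, LinearMap.add_apply, LinearMap.flip_apply, Rat.cast_add]
      | zero =>
        have h4 : (0 : (Fin n → ℂ) →ₗ[ℂ] (Fin n → ℂ) →ₗ[ℂ] ℂ) + LinearMap.flip 0 = 0 := by
          rw [zero_add]
          rfl
        rw [h4]
        exact Submodule.zero_mem _
      | add B₁ B₂ _ _ h h' =>
        have h4 : B₁ + B₂ + (B₁ + B₂).flip = (B₁ + B₁.flip) + (B₂ + B₂.flip) := by
          refine LinearMap.ext fun v => LinearMap.ext fun w => ?_
          change B₁ v w + B₂ v w + (B₁ w v + B₂ w v) = (B₁ v w + B₁ w v) + (B₂ v w + B₂ w v)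
          ring
        rw [h4]
        exact Submodule.add_mem _ h h'
      | smul c B₁ _ h =>
        have h4 : c • B₁ + (c • B₁).flip = c • (B₁ + B₁.flip) := by
          refine LinearMap.ext fun v => LinearMap.ext fun w => ?_
          change c * B₁ v w + c * B₁ w v = c * (B₁ v w + B₁ w v)
          ring
        rw [h4]
        exact Submodule.smul_mem _ c h
    have h4 := h3 B h2
    have h5 : B = (1 / 2 : ℂ) • (B + B.flip) := by
      refine LinearMap.ext fun v => LinearMap.ext fun w => ?_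
      change B v w = (1 / 2 : ℂ) * (B v w + B w v)
      rw [← hsym v w]
      ring
    rw [h5]
    exact Submodule.smul_mem _ _ h4
  obtain ⟨T', hT'1, hT'2⟩ := Submodule.mem_span_finite_of_mem_span h1
  have h2 : ∀ B' : T', ∃ s : H →ₗ[ℚ] H →ₗ[ℚ] ℚ, IsHodgeBilinear per s ∧
      (∀ x y, s x y = s y x) ∧ B'.1 = om b s := fun B' => hT'1 B'.2
  choose s hs1 hs2 hs3 using h2
  choose Q lam hQ1 hQ2 hQ3 hQ4 hQ5 hQ6 using fun B' : T' =>
    skew_data per b b' hb hR e hs (hs1 B') (hs2 B')
  obtain ⟨c, hc⟩ : ∃ c : T' → ℂ, ∑ B' : T', c B' • B'.1 = B := by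
    have h3 : B ∈ Submodule.span ℂ (Set.range fun B' : T' => B'.1) := by
      rw [Subtype.range_coe_subtype]
      exact hT'2
    exact (Submodule.mem_span_range_iff_exists_fun ℂ).1 h3
  let ζ : R → ℂ := fun x => ∑ B' : T', c B' * lam B' x
  have hBe : ∀ x, B (e x) = ζ x • om b ω₀ (e x) := by
    intro x
    rw [← hc, LinearMap.sum_apply, Finset.sum_smul]
    refine Finset.sum_congr rfl fun B' _ => ?_
    rw [LinearMap.smul_apply, hs3, ← hQ3 B']
    refine LinearMap.ext fun w => ?_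
    rw [LinearMap.smul_apply, om_comp, hQ4, map_smul, LinearMap.smul_apply, LinearMap.smul_apply,
      smul_eq_mul, smul_eq_mul, smul_eq_mul, mul_assoc]
  have hζinv : ∀ x, ζ (inv x) = - ζ x := by
    intro x
    change ∑ B' : T', c B' * lam B' (inv x) = - ∑ B' : T', c B' * lam B' x
    rw [← Finset.sum_neg_distrib]
    refine Finset.sum_congr rfl fun B' _ => ?_
    rw [hQ6]
    ring
  obtain ⟨x, hx⟩ : ∃ x, ζ x ≠ 0 := by
    by_contra h
    push Not at h
    apply hB0
    refine e.ext fun x => ?_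
    rw [hBe, h x, zero_smul]
    rfl
  -- a generic rational combination
  have hgen := exists_generic (κ := T')
    (μ := Option {y : R // (fun B' => lam B' y) ≠ fun B' => lam B' x})
    (fun o => match o with
      | none => fun B' => lam B' x
      | some y => fun B' => lam B' y.1 - lam B' x) (fun o => by
      cases o with
      | none =>
        intro h
        apply hx
        change ∑ B' : T', c B' * lam B' x = 0
        refine Finset.sum_eq_zero fun B' _ => ?_
        have h3 : lam B' x = 0 := congrFun h B'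
        rw [h3, mul_zero]
      | some y =>
        intro h
        apply y.2
        funext B'
        exact sub_eq_zero.1 (congrFun h B'))
  obtain ⟨t, ht⟩ := hgen
  let P : H →ₗ[ℚ] H := ∑ B' : T', t B' • Q B'
  let p : R → ℂ := fun y => ∑ B' : T', (t B' : ℂ) * lam B' y
  have hP1 : IsHodgeEnd per P := end_sum per _ _ _ hQ1
  have hP2 : ∀ R : H →ₗ[ℚ] H, IsHodgeEnd per R → P ∘ₗ R = R ∘ₗ P := by
    intro R hR'
    refine LinearMap.ext fun w => ?_
    change (∑ B' : T', t B' • Q B') (R w) = R ((∑ B' : T', t B' • Q B') w)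
    rw [LinearMap.sum_apply, LinearMap.sum_apply, map_sum]
    refine Finset.sum_congr rfl fun B' _ => ?_
    have h3 : Q B' (R w) = R (Q B' w) := congrArg (fun f : H →ₗ[ℚ] H => f w) (hQ2 B' R hR')
    rw [LinearMap.smul_apply, LinearMap.smul_apply, h3, map_smul]
  have hPe : ∀ y, mQ b P *ᵥ e y = p y • e y := by
    intro y
    change mQ b (∑ B' : T', t B' • Q B') *ᵥ e y = _
    rw [mQ_sum, Matrix.sum_mulVec, Finset.sum_smul]
    refine Finset.sum_congr rfl fun B' _ => ?_
    rw [Matrix.smul_mulVec, hQ4, smul_smul]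
  have hpinv : ∀ y, p (inv y) = - p y := by
    intro y
    change ∑ B' : T', (t B' : ℂ) * lam B' (inv y) = - ∑ B' : T', (t B' : ℂ) * lam B' y
    rw [← Finset.sum_neg_distrib]
    refine Finset.sum_congr rfl fun B' _ => ?_
    rw [hQ6]
    ring
  have hpcc : ∀ y, p (inv y) = cc (p y) := by
    intro y
    change ∑ B' : T', (t B' : ℂ) * lam B' (inv y) = cc (∑ B' : T', (t B' : ℂ) * lam B' y)
    rw [map_sum]
    refine Finset.sum_congr rfl fun B' _ => ?_
    rw [hQ5, map_mul, map_ratCast]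
  have hpx : p x ≠ 0 := ht none
  have him : (p x).im ≠ 0 := by
    intro h
    have h3 : cc (p x) = p x := by rw [cc_apply, Complex.conj_eq_iff_im.2 h]
    rw [← hpcc, hpinv] at h3
    apply hpx
    have h4 : (2 : ℂ) * p x = 0 := by linear_combination -h3
    exact (mul_eq_zero.1 h4).resolve_left two_ne_zero
  have hblock : ∀ y, p y = p x → ζ y = ζ x := by
    intro y hy
    have h3 : (fun B' => lam B' y) = fun B' => lam B' x := by
      by_contra h
      apply ht (some ⟨y, h⟩)
      change ∑ B' : T', (t B' : ℂ) * (lam B' y - lam B' x) = 0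
      have h4 : ∑ B' : T', (t B' : ℂ) * (lam B' y - lam B' x) = p y - p x := by
        rw [← Finset.sum_sub_distrib]
        exact Finset.sum_congr rfl fun B' _ => by ring
      rw [h4, hy, sub_self]
    change ∑ B' : T', c B' * lam B' y = ∑ B' : T', c B' * lam B' x
    exact Finset.sum_congr rfl fun B' _ => by rw [congrFun h3 B']
  have hroot : (P.charpoly.map (algebraMap ℚ ℂ)).IsRoot (p x) := by
    rw [← Polynomial.rootMultiplicity_pos ((Polynomial.map_ne_zero_iff
      (algebraMap ℚ ℂ).injective).2 P.charpoly_monic.ne_zero), ← mQ_eq_charpoly b, mult_diagE e hPe]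
    exact Finset.card_pos.2 ⟨x, Finset.mem_filter.2 ⟨Finset.mem_univ _, rfl⟩⟩
  have hbig := hmult P hP1 hP2 (p x) hroot him
  rw [← mQ_eq_charpoly b, mult_diagE e hPe] at hbig
  -- the rank of the form
  let S : Finset R := Finset.univ.filter fun y => ζ y ≠ 0
  have hS : 4 * m < S.card := by
    let S₁ : Finset R := Finset.univ.filter fun y => p y = p x
    have h3 : Disjoint S₁ (S₁.image inv) := by
      rw [Finset.disjoint_left]
      intro y hy hy'
      obtain ⟨z, hz, rfl⟩ := Finset.mem_image.1 hy'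
      have h4 : p z = p x := (Finset.mem_filter.1 hz).2
      have h5 : p (inv z) = p x := (Finset.mem_filter.1 hy).2
      rw [hpinv, h4] at h5
      apply hpx
      have h6 : (2 : ℂ) * p x = 0 := by linear_combination -h5
      exact (mul_eq_zero.1 h6).resolve_left two_ne_zero
    have h4 : S₁ ∪ S₁.image inv ⊆ S := by
      intro y hy
      refine Finset.mem_filter.2 ⟨Finset.mem_univ _, ?_⟩
      rcases Finset.mem_union.1 hy with h | h
      · rw [hblock y (Finset.mem_filter.1 h).2]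
        exact hx
      · obtain ⟨z, hz, rfl⟩ := Finset.mem_image.1 h
        rw [hζinv, hblock z (Finset.mem_filter.1 hz).2]
        exact neg_ne_zero.2 hx
    have h5 := Finset.card_le_card h4
    have hinj : Function.Injective (inv : R → _) := fun a c hac => by
      rw [← hs.inv_inv a, hac, hs.inv_inv]
    rw [Finset.card_union_of_disjoint h3, Finset.card_image_of_injective _ hinj] at h5
    have h6 : 2 * m < S₁.card := hbig
    omega
  have hli : LinearIndependent ℂ (fun y : S => (⟨B (e y.1), LinearMap.mem_range_self B _⟩ :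
      LinearMap.range B)) := by
    have h3 : LinearIndependent ℂ (fun y : S => B (e y.1)) := by
      have hωinj : Function.Injective (om b ω₀) := by
        rw [← LinearMap.ker_eq_bot, Submodule.eq_bot_iff]
        intro v hv
        apply hpol.nondeg
        intro w
        rw [LinearMap.mem_ker.1 hv]
        rfl
      have h4 : LinearIndependent ℂ (fun y : S => om b ω₀ (e y.1)) :=
        (e.linearIndependent.comp (fun y : S => y.1) Subtype.val_injective).map'
          (om b ω₀) (LinearMap.ker_eq_bot.2 hωinj)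
      have h5 := h4.units_smul (fun y : S => Units.mk0 (ζ y.1) (Finset.mem_filter.1 y.2).2)
      have h6 : (fun y : S => B (e y.1)) =
          (fun y : S => Units.mk0 (ζ y.1) (Finset.mem_filter.1 y.2).2) • fun y : S =>
            om b ω₀ (e y.1) := by
        funext y
        rw [hBe]
        rfl
      rw [h6]
      exact h5
    exact LinearIndependent.of_comp (LinearMap.range B).subtype h3
  have h3 := hli.fintype_card_le_finrank
  rw [Fintype.card_coe] at h3
  omega

include hb hR hs in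
/-- All Hodge tensors of degrees bounded by the multiplicities are generated in degree two. -/
theorem tensor_mult [FiniteDimensional ℚ H] {m : ℕ}
    (hmult : ∀ P : H →ₗ[ℚ] H, IsHodgeEnd per P →
      (∀ Q : H →ₗ[ℚ] H, IsHodgeEnd per Q → P ∘ₗ Q = Q ∘ₗ P) →
      ∀ z : ℂ, (P.charpoly.map (algebraMap ℚ ℂ)).IsRoot z → z.im ≠ 0 →
        2 * m < (P.charpoly.map (algebraMap ℚ ℂ)).rootMultiplicity z)
    (ψ : MultilinearMap ℚ (fun _ : Fin m × Fin 2 => H) ℚ) (hψ : IsHodgeTensor per ψ) :
    ψ ∈ Submodule.span ℚ {ψ : MultilinearMap ℚ (fun _ : Fin m × Fin 2 => H) ℚ |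
      IsProductOfHodgeBilinear per ψ} := by
  classical
  have hpol := isPol_of per b b' hb hR
  apply product_of_span per b b' hb
  exact four_mem e (inv := inv)
    (jj := fun x => om b ω₀ (e x) (e (inv x))) hs.inv_inv hs.ne
    (hs.jj_anti per b b' hb hR e) (hs.jj_ne per b b' hb hR e)
    (om b ω₀) (hs.om_pair per b b' hb hR e) (rho (pj b')) (chi (pj b'))
    hpol.sim hpol.hasProj hs.eig hs.q0 hs.mul hs.mlt hs.four
    (fun B hB1 hB2 hB3 => rank_lt per b b' hb hR e hs hmult hB1 hB2 hB3)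
    (ex b ψ) (tate_of_HT ⟨ex_rat b ψ, (hodge_iff per b b' hb ψ).1 hψ⟩)

end

end Pool.Agent.Q43.FS
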