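import Pool.Agent.Q43.FS.Fr

/-!
# The rank of the excesses is at most the defect
-/

set_option autoImplicit false
set_option linter.unusedSectionVars false

namespace Pool.Agent.Q43.FS

open NumberField Module Matrix TensorProduct Pool.Agent.H204R3 Pool.Agent.H204R3.CM
  Pool.Agent.H204R3.SP
  Pool.Agent.H204R3.GP Pool.Agent.W516.MTD Pool.Agent.W516.FT Pool.Agent.Q43.HL
  Pool.Agent.TH776.FM Pool.Agent.Q43.RP

noncomputable section

/-- The rank of a rational span of integral functions. -/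
theorem finrank_span_le {Y : Type} [Fintype Y] (R : Submodule ℤ (Y → ℤ)) (S : Set (Y → ℚ))
    (hS : ∀ f ∈ S, ∃ g ∈ R, f = fun y => ((g y : ℤ) : ℚ)) :
    finrank ℚ (Submodule.span ℚ S) ≤ finrank ℤ R := by
  classical
  let cast : (Y → ℤ) →ₗ[ℤ] (Y → ℚ) :=
    { toFun := fun f => fun y => (f y : ℚ)
      map_add' := fun f f' => by
        ext y
        simp
      map_smul' := fun c f => by
        ext y
        simp }
  let b := Module.finBasis ℤ R
  have h1 : Submodule.span ℚ S ≤ Submodule.span ℚ (Set.range fun i => cast (b i : Y → ℤ)) := by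
    refine Submodule.span_le.2 ?_
    intro f hf
    obtain ⟨g, hg, rfl⟩ := hS f hf
    have h2 := b.sum_repr ⟨g, hg⟩
    have h3 : g = ∑ i, b.repr ⟨g, hg⟩ i • (b i : Y → ℤ) := by
      have h4 := congrArg (Subtype.val) h2
      rw [Submodule.coe_sum] at h4
      exact h4.symm
    have h5 : cast g = ∑ i, ((b.repr ⟨g, hg⟩ i : ℤ) : ℚ) • cast (b i : Y → ℤ) := by
      conv_lhs => rw [h3]
      rw [map_sum]
      refine Finset.sum_congr rfl fun i _ => ?_
      rw [map_smul]
      ext y
      simp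
    change cast g ∈ _
    rw [h5]
    exact Submodule.sum_mem _ fun i _ =>
      Submodule.smul_mem _ _ (Submodule.subset_span ⟨i, rfl⟩)
  calc finrank ℚ (Submodule.span ℚ S) ≤
        finrank ℚ (Submodule.span ℚ (Set.range fun i => cast (b i : Y → ℤ))) :=
        Submodule.finrank_mono h1
    _ ≤ Fintype.card (Fin (finrank ℤ R)) := finrank_range_le_card _
    _ = finrank ℤ R := Fintype.card_fin _

variable {I : Type} [Fintype I] (K : I → Type) [∀ i, Field (K i)] [∀ i, NumberField (K i)]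
  [∀ i, IsCMField (K i)]

/-- The excesses of a balanced word are relations. -/
theorem dl_rel {q : ℚ} (hq : q ≠ 0) (π : ∀ i, K i)
    (hweil : ∀ i, ∀ φ : K i →+* ℂ, ‖φ (π i)‖ ^ 2 = (q : ℝ)) {m N : ℕ} (hN : 0 < N)
    [DecidableEq (Σ i, (K i →+* ℂ))]
    (J : Fin m × Fin 2 → (Σ i, (K i →+* ℂ)))
    (h : (∏ l, val π (J l)) ^ N = ((q : ℂ) ^ m) ^ N) : dl GP.bar J ∈ relLat K π := by
  have hq0 : (q : ℂ) ≠ 0 := Rat.cast_ne_zero.2 hq
  have hv0 : ∀ x : Σ i, (K i →+* ℂ), val π x ≠ 0 := by
    intro x h0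
    have h1 := val_barC K hweil (RingHom.id ℂ) x
    rw [h0, zero_mul] at h1
    exact hq0 h1.symm
  refine Submodule.subset_span ⟨fun y => ?_, N, hN, ?_⟩
  · have h1 := dl_inv (inv := GP.bar) GP.bar_bar J y
    refine Eq.trans ?_ h1
    congr 1
    obtain ⟨i, φ⟩ := y
    have h2 : cbar φ = ComplexEmbedding.conjugate φ := comp_cbar (RingHom.id ℂ) φ
    exact congrArg (Sigma.mk i) h2.symm
  · let v : (Σ i, (K i →+* ℂ)) → ℂˣ := fun x => Units.mk0 (val π x) (hv0 x)
    have h1 : ∏ y : (Σ i, (K i →+* ℂ)), y.2 (π y.1) ^ dl GP.bar J y =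
        ((∏ l, v (J l)) * (∏ l, v (GP.bar (J l)))⁻¹ : ℂˣ) := by
      rw [← prod_word v J, ← prod_word v (fun l => GP.bar (J l)), ← Finset.prod_inv_distrib,
        ← Finset.prod_mul_distrib, Units.coe_prod]
      refine Finset.prod_congr rfl fun y _ => ?_
      rw [← _root_.zpow_neg, ← _root_.zpow_add, Units.val_zpow_eq_zpow_val]
      unfold dl
      have h2 : (Finset.univ.filter (fun k => J k = GP.bar y)) =
          Finset.univ.filter (fun l => GP.bar (J l) = y) := by
        refine Finset.filter_congr fun l _ => ⟨fun h => by rw [h, GP.bar_bar], fun h => by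
          rw [← h, GP.bar_bar]⟩
      rw [h2, ← sub_eq_add_neg]
      rfl
    rw [h1, ← Units.val_pow_eq_pow_val, Units.val_eq_one]
    have h2 : (∏ l, v (J l)) * (∏ l, v (GP.bar (J l))) = Units.mk0 (q : ℂ) hq0 ^ (m * 2) := by
      rw [← Finset.prod_mul_distrib]
      have h3 : ∀ l, v (J l) * v (GP.bar (J l)) = Units.mk0 (q : ℂ) hq0 := fun l =>
        Units.ext (val_barC K hweil (RingHom.id ℂ) (J l))
      rw [Finset.prod_congr rfl fun l _ => h3 l, Finset.prod_const, Finset.card_univ,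
        Fintype.card_prod, Fintype.card_fin, Fintype.card_fin]
    have h3 : (∏ l, v (J l)) ^ N = Units.mk0 (q : ℂ) hq0 ^ (m * N) := by
      apply Units.ext
      rw [Units.val_pow_eq_pow_val, Units.val_pow_eq_pow_val, Units.coe_prod, pow_mul]
      exact h
    have h4 : (∏ l, v (GP.bar (J l))) ^ N = Units.mk0 (q : ℂ) hq0 ^ (m * N) := by
      have h5 := congrArg (· ^ N) h2
      simp only [mul_pow] at h5
      rw [h3, ← pow_mul] at h5
      have h6 : m * 2 * N = m * N + m * N := by ring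
      rw [h6, pow_add] at h5
      exact mul_left_cancel h5
    rw [mul_pow, inv_pow, h3, h4, mul_inv_cancel]

end

end Pool.Agent.Q43.FS
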