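import Pool.Agent.Q43.HL.Str5

/-!
# A special element of the group of an abelian variety
-/

set_option autoImplicit false
set_option linter.unusedSectionVars false

namespace Pool.Agent.Q43.FS

open Module Matrix Pool.Agent.H204R3.CM Pool.Agent.H204R3.SP Pool.Agent.H204R3.GP
  Pool.Agent.W516.MTD Pool.Agent.W516.FT Pool.Agent.Q43.HL

noncomputable section

variable {n : ℕ} {H T : Type} [AddCommGroup H] [Module ℚ H] [AddCommGroup T] [Module ℂ T]
  (per : H →+ T) (b : Basis (Fin n) ℚ H) (b' : Basis (Fin n) ℝ T) (hb : ∀ i, b' i = per (b i))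
  {ω₀ : H →ₗ[ℚ] H →ₗ[ℚ] ℚ} (hR : IsRiemannForm per ω₀)
  {R : Type} [Fintype R] [DecidableEq R] (e : Basis R ℂ (Fin n → ℂ)) {inv : R → R}
  {a : R → ℂ} {q : ℂ} {γ : GG (pj b')}

/-- An element of the group with only trivial relations of length four between the eigenvalues. -/
structure Sp (b' : Basis (Fin n) ℝ T) (e : Basis R ℂ (Fin n → ℂ)) (inv : R → R) (a : R → ℂ) (q : ℂ)
    (γ : GG (pj b')) : Prop where
  inv_inv : ∀ x, inv (inv x) = x
  ne : ∀ x, inv x ≠ x
  eig : ∀ x, rho (pj b') γ (e x) = a x • e x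
  q0 : q ≠ 0
  mul : ∀ x, a x * a (inv x) = q
  mlt : chi (pj b') γ = q
  four : Four inv a q

variable (hs : Sp b' e inv a q γ)

variable {b'} {e} in
include hs in
theorem Sp.inj {x y : R} (h : a x = a y) : x = y :=
  four_dist hs.inv_inv hs.ne hs.mul hs.four 1 one_pos x y (by rw [h])

variable {b'} {e} in
include hs in
theorem Sp.a_ne (x : R) : a x ≠ 0 := by
  intro h
  apply hs.q0
  rw [← hs.mul x, h, zero_mul]

include hb hR hs

/-- Tate forms of degree two pair only vectors of opposite weights. -/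
theorem Sp.tate_pair {B : (Fin n → ℂ) →ₗ[ℂ] (Fin n → ℂ) →ₗ[ℂ] ℂ}
    (hB : IsTate2 (rho (pj b')) (chi (pj b')) B) {x y : R} (h : B (e x) (e y) ≠ 0) :
    y = inv x := by
  have h1 := tate2_all (pj_idem b') hB γ (e x) (e y)
  rw [hs.eig, hs.eig, hs.mlt, map_smul, map_smul, LinearMap.smul_apply, smul_eq_mul, smul_eq_mul,
    ← mul_assoc] at h1
  have h2 := mul_right_cancel₀ h h1
  apply hs.inj
  apply mul_left_cancel₀ (hs.a_ne x)
  rw [hs.mul, mul_comm, h2]

theorem Sp.om_pair (x y : R) : om b ω₀ (e x) (e y) =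
    JJ inv (fun x => om b ω₀ (e x) (e (inv x))) x y := by
  have hpol := isPol_of per b b' hb hR
  unfold JJ
  split_ifs with h
  · rw [h]
  · by_contra h0
    exact h (hs.tate_pair per b b' hb hR e hpol.tate2 h0)

theorem Sp.jj_anti (x : R) : om b ω₀ (e (inv x)) (e (inv (inv x))) =
    - om b ω₀ (e x) (e (inv x)) := by
  have hpol := isPol_of per b b' hb hR
  rw [hs.inv_inv, hpol.anti]

theorem Sp.jj_ne (x : R) : om b ω₀ (e x) (e (inv x)) ≠ 0 := by
  intro h0
  have hpol := isPol_of per b b' hb hR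
  apply e.ne_zero x
  apply hpol.nondeg
  have h1 : om b ω₀ (e x) = 0 := by
    refine e.ext fun y => ?_
    rw [LinearMap.zero_apply]
    by_cases hy : y = inv x
    · rw [hy]
      exact h0
    · by_contra h2
      exact hy (hs.tate_pair per b b' hb hR e hpol.tate2 h2)
  intro v
  rw [h1, LinearMap.zero_apply]

/-- Hodge endomorphisms are diagonal. -/
theorem Sp.end_diag {P : H →ₗ[ℚ] H} (hP : IsHodgeEnd per P) (x : R) :
    ∃ c : ℂ, mQ b P *ᵥ e x = c • e x := by
  classical
  have hHB : IsHodgeBilinear per ω₀ := by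
    obtain ⟨F, h1, h2, -, -⟩ := hR
    exact ⟨F, h1, h2⟩
  have hP' := hodge_of_end per hHB hP
  have h1 : IsTate2 (rho (pj b')) (chi (pj b')) (om b (ω₀.comp P)) := by
    rw [tate2_iff, bf_om]
    exact tate_of_HT ⟨ex_rat b _, (hodge_iff per b b' hb _).1
      ((hodge2_tensor per b b' hb _).2 hP')⟩
  set v := mQ b P *ᵥ e x with hv
  have h2 : ∀ z, z ≠ x → e.repr v z = 0 := by
    intro z hz
    have h3 : om b ω₀ v (e (inv z)) = e.repr v z * om b ω₀ (e z) (e (inv z)) := by
      conv_lhs => rw [← e.sum_repr v]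
      have h4 : om b ω₀ (∑ i, e.repr v i • e i) =
        ∑ i, om b ω₀ (e.repr v i • e i) := map_sum _ _ _
      rw [h4, LinearMap.sum_apply, Finset.sum_eq_single z]
      · rw [map_smul, LinearMap.smul_apply, smul_eq_mul]
      · intro y _ hy
        rw [map_smul, LinearMap.smul_apply, hs.om_pair per b b' hb hR e]
        unfold JJ
        rw [if_neg, smul_zero]
        intro h
        apply hy
        rw [← hs.inv_inv y, ← h, hs.inv_inv]
      · intro h
        exact absurd (Finset.mem_univ z) h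
    have h5 : om b ω₀ v (e (inv z)) = 0 := by
      rw [hv, ← om_comp]
      by_contra h0
      have h6 := hs.tate_pair per b b' hb hR e h1 h0
      apply hz
      rw [← hs.inv_inv z, h6, hs.inv_inv]
    rw [h5] at h3
    exact (mul_eq_zero.1 h3.symm).resolve_right (hs.jj_ne per b b' hb hR e z)
  refine ⟨e.repr v x, ?_⟩
  conv_lhs => rw [← e.sum_repr v]
  rw [Finset.sum_eq_single x]
  · intro y _ hy
    rw [h2 y hy, zero_smul]
  · intro h
    exact absurd (Finset.mem_univ x) h

end

end Pool.Agent.Q43.FS
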