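import Pool.Agent.Q43.FS.Sp
import Pool.Agent.Q43.HL.Str8

/-!
# The structure of the Hodge tensors, given a special element
-/

set_option autoImplicit false
set_option linter.unusedSectionVars false

namespace Pool.Agent.Q43.FS

open Module Matrix Pool.Agent.H204R3.CM Pool.Agent.H204R3.SP Pool.Agent.H204R3.GP
  Pool.Agent.W516.MTD Pool.Agent.W516.FT Pool.Agent.Q43.HL

noncomputable section

variable {n : ℕ} {H T : Type} [AddCommGroup H] [Module ℚ H] [AddCommGroup T] [Module ℂ T]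
  (per : H →+ T) (b : Basis (Fin n) ℚ H) (b' : Basis (Fin n) ℝ T) (hb : ∀ i, b' i = per (b i))
  {ω₀ : H →ₗ[ℚ] H →ₗ[ℚ] ℚ} (hR : IsRiemannForm per ω₀)
  {R : Type} [Fintype R] [DecidableEq R] (e : Basis R ℂ (Fin n → ℂ)) (inv : R → R)
  {a : R → ℂ} {q : ℂ} {γ : GG (pj b')}

/-- Two indices are related if all words of Hodge tensors have the same excess at them. -/
def WF (x y : R) : Prop :=
  ∀ (m : ℕ) (ψ : MultilinearMap ℚ (fun _ : Fin m × Fin 2 => H) ℚ), IsHodgeTensor per ψ →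
    ∀ I : Fin m × Fin 2 → R, ex b ψ (fun k => e (I k)) ≠ 0 → dl inv I x = dl inv I y

theorem wf_refl (x : R) : WF per b e inv x x := fun _ _ _ _ _ => rfl

theorem wf_symm {x y : R} (h : WF per b e inv x y) : WF per b e inv y x :=
  fun m ψ hψ I hI => (h m ψ hψ I hI).symm

theorem wf_trans {x y z : R} (h : WF per b e inv x y)
    (h' : WF per b e inv y z) : WF per b e inv x z :=
  fun m ψ hψ I hI => (h m ψ hψ I hI).trans (h' m ψ hψ I hI)

theorem wf_tate {x y : R} (h : WF per b e inv x y) (hb : ∀ i, b' i = per (b i))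
    (m : ℕ) (φ : Frm (Fin m × Fin 2) (Fin n)) (hφ : IsTate (rho (pj b')) (chi (pj b')) m φ)
    (I : Fin m × Fin 2 → R) (hI : φ (fun k => e (I k)) ≠ 0) :
    dl inv I x = dl inv I y := by
  by_contra hne
  apply hI
  have h1 := tate_span (pj_idem b') hφ
  refine Submodule.span_induction (p := fun φ _ => φ (fun k => e (I k)) = 0) ?_ ?_ ?_ ?_ h1
  · intro φ' hφ'
    obtain ⟨ψ, rfl⟩ := exists_ex b hφ'.1
    by_contra h2
    exact hne (h m ψ ((hodge_iff per b b' hb ψ).2 hφ'.2) I h2)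
  · rfl
  · intro a c _ _ ha hc
    rw [_root_.add_apply, ha, hc, add_zero]
  · intro c a _ ha
    rw [_root_.smul_apply, ha, smul_zero]

theorem tate_wf {x y : R} (hb : ∀ i, b' i = per (b i))
    (h : ∀ (m : ℕ) (φ : Frm (Fin m × Fin 2) (Fin n)), IsTate (rho (pj b')) (chi (pj b')) m φ →
      ∀ I : Fin m × Fin 2 → R, φ (fun k => e (I k)) ≠ 0 → dl inv I x = dl inv I y) :
    WF per b e inv x y := by
  intro m ψ hψ I hI
  exact h m (ex b ψ) (tate_of_HT ⟨ex_rat b ψ, (hodge_iff per b b' hb ψ).1 hψ⟩) I hI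

variable (hs : Sp b' e inv a q γ)

section main

variable {L : Type} [DecidableEq L] (bk : R → L) (hbk : ∀ x y, bk x = bk y ↔ WF per b e inv x y)

include hb hR hs in
/-- Endomorphisms which are constant on the blocks are Hodge endomorphisms. -/
theorem end_block {P₀ : H →ₗ[ℚ] H} (c : R → ℂ)
    (hP : ∀ x, mQ b P₀ *ᵥ e x = c x • e x) (hc : ∀ x y, WF per b e inv x y → c x = c y) :
    IsHodgeEnd per P₀ := by
  classical
  have hpol := isPol_of per b b' hb hR
  apply end_of_ae per b b' hb hR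
  have h1 : (mQ b P₀).mulVecLin = dg e c := by
    refine e.ext fun x => ?_
    rw [mulVecLin_apply, hP, dg_basis]
  rw [h1]
  let S : Setoid R :=
    { r := WF per b e inv
      iseqv :=
        { refl := wf_refl per b e inv
          symm := wf_symm per b e inv
          trans := wf_trans per b e inv } }
  let bk : R → Quotient S := Quotient.mk S
  have hbk : ∀ x y, bk x = bk y ↔ WF per b e inv x y := fun x y => Quotient.eq
  exact dg_block e (inv := inv)
    (jj := fun x => om b ω₀ (e x) (e (inv x))) hs.inv_inv hs.ne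
    (hs.jj_anti per b b' hb hR e) (hs.jj_ne per b b' hb hR e)
    (om b ω₀) (hs.om_pair per b b' hb hR e) (rho (pj b')) (chi (pj b'))
    hpol.sim hpol.hasProj hs.eig hs.q0 hs.mul hs.mlt hs.four bk
    (fun x y h => (hbk x y).2 (tate_wf per b b' e inv hb fun m φ hφ I hI => h m φ hφ I hI)) c
    (fun x y h => hc x y ((hbk x y).1 h))

include hb hR hs hbk in
/-- **The structure of the Hodge tensors.** -/
theorem strC (GM : Set (H →ₗ[ℚ] H)) (hGM : ∀ g ∈ GM, ∃ G : Matrix R R ℂ,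
      (∀ v x, e.repr (mQ b g *ᵥ v) x = ∑ y, G x y * e.repr v y) ∧
      (∀ x y, bk x ≠ bk y → G x y = 0) ∧
      ∀ l : L, (Matrix.of fun x y : {x // bk x = l} => G x.1 y.1).det = 1)
    {m : ℕ} (ψ : MultilinearMap ℚ (fun _ : Fin m × Fin 2 => H) ℚ) (hψ : IsHodgeTensor per ψ) :
    ψ ∈ Submodule.span ℚ (HSet per GM m) := by
  classical
  have hpol := isPol_of per b b' hb hR
  apply Pool.Agent.Q43.HL.span_descent b
  have h1 := strB e (inv := inv)
    (jj := fun x => om b ω₀ (e x) (e (inv x))) hs.inv_inv hs.ne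
    (hs.jj_anti per b b' hb hR e) (hs.jj_ne per b b' hb hR e)
    (om b ω₀) (hs.om_pair per b b' hb hR e) (rho (pj b')) (chi (pj b'))
    hpol.sim hpol.hasProj hs.eig hs.q0 hs.mul hs.mlt hs.four bk
    (fun x y h => (hbk x y).2 (tate_wf per b b' e inv hb fun m φ hφ I hI => h m φ hφ I hI))
    (fun m φ hφ I hI x y h => wf_tate per b b' e inv ((hbk x y).1 h) hb m φ hφ I hI)
    (ex b ψ) (tate_of_HT ⟨ex_rat b ψ, (hodge_iff per b b' hb ψ).1 hψ⟩)
  refine Submodule.span_le.2 ?_ h1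
  rintro _ ⟨s, m', e2, β, w, P, hβ, hP, hw, hwS, rfl⟩
  have h2 : w ∈ Submodule.span ℂ {φ' : Frm (Fin m' × Fin 2) (Fin n) | HT (pj b') φ' ∧
      ∀ M ∈ (mQ b) '' GM, ∀ v, φ' (fun l => M *ᵥ v l) = φ' v} := by
    refine mem_span_inv ?_ (fun σ => tate_bal (pj_idem b') hw σ) ?_
    · rintro _ ⟨g, -, rfl⟩ σ
      exact mQ_rat b g σ
    · rintro _ ⟨g, hg, rfl⟩ v
      obtain ⟨G, hG1, hG2, hG3⟩ := hGM g hg
      exact hwS (mQ b g).mulVecLin G hG1 hG2 hG3 v
  have h3 := prodT_span e2 (fun j => tate2_span per b b' hb (hβ j)) h2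
    (fun k => ae_span per b b' hb hR (hP k))
  refine Submodule.span_mono ?_ h3
  rintro _ ⟨β', w', P', hβ', hw', hP', rfl⟩
  choose β₀ hβ1 hβ2 using hβ'
  choose Q hQ1 hQ2 using hP'
  obtain ⟨w₀, rfl⟩ := exists_ex b hw'.1.1
  refine ⟨prodT e2 β₀ w₀ Q, ⟨s, m', e2, β₀, w₀, Q, hβ1, hQ1,
    (hodge_iff per b b' hb w₀).2 hw'.1.2, fun g hg v => inv_ex b w₀ g (fun v => hw'.2 _ ⟨g, hg, rfl⟩ v) v,
    rfl⟩, ?_⟩
  rw [ex_prodT]
  congr 1
  · funext j
    exact hβ2 j
  · funext j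
    exact hQ2 j

include hb hR hs in
/-- If the excesses of all words of Hodge tensors in at most `M` pairs of variables are trivial, then
these tensors are generated in degree two. -/
theorem tensor_low {M : ℕ} (hM : 1 ≤ M)
    (h0 : ∀ m' ≤ M, ∀ (ψ : MultilinearMap ℚ (fun _ : Fin m' × Fin 2 => H) ℚ),
      IsHodgeTensor per ψ → ∀ I : Fin m' × Fin 2 → R, ex b ψ (fun k => e (I k)) ≠ 0 →
        ∀ y, dl inv I y = 0) {m : ℕ} (hm : m ≤ M)
    (ψ : MultilinearMap ℚ (fun _ : Fin m × Fin 2 => H) ℚ) (hψ : IsHodgeTensor per ψ) :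
    ψ ∈ Submodule.span ℚ {ψ : MultilinearMap ℚ (fun _ : Fin m × Fin 2 => H) ℚ |
      IsProductOfHodgeBilinear per ψ} := by
  classical
  have hpol := isPol_of per b b' hb hR
  apply product_of_span per b b' hb
  refine Pool.Agent.Q43.RP.tateG_low (M := M) e (inv := inv)
    (jj := fun x => om b ω₀ (e x) (e (inv x))) hs.inv_inv hs.ne
    (hs.jj_anti per b b' hb hR e) (hs.jj_ne per b b' hb hR e)
    (om b ω₀) (hs.om_pair per b b' hb hR e) (rho (pj b')) (chi (pj b'))
    hM hpol.sim hpol.hasProj ?_ hm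
    (ex b ψ) (tate_of_HT ⟨ex_rat b ψ, (hodge_iff per b b' hb ψ).1 hψ⟩)
  intro m' φ hm' hφ I hI y
  have h2 : dl inv I y = 0 := by
    by_contra hne
    apply hI
    have h1 := tate_span (pj_idem b') hφ
    refine Submodule.span_induction (p := fun φ _ => φ (fun k => e (I k)) = 0) ?_ ?_ ?_ ?_ h1
    · intro φ' hφ'
      obtain ⟨ψ', rfl⟩ := exists_ex b hφ'.1
      by_contra h3
      exact hne (h0 m' hm' ψ' ((hodge_iff per b b' hb ψ').2 hφ'.2) I h3 y)
    · rfl
    · intro a c _ _ ha hc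
      rw [_root_.add_apply, ha, hc, add_zero]
    · intro c a _ ha
      rw [_root_.smul_apply, ha, smul_zero]
  unfold dl at h2
  have h3 : ((Finset.univ.filter (fun k => I k = y)).card : ℤ) =
      (Finset.univ.filter (fun k => I k = inv y)).card := sub_eq_zero.1 h2
  exact_mod_cast h3

end main

end

end Pool.Agent.Q43.FS
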