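import Pool.Agent.Q43.FS.Co
import Pool.Agent.Q43.RP.Mtl

/-!
# The matrix of a Frobenius element, and uniform exponents
-/

set_option autoImplicit false
set_option linter.unusedSectionVars false

namespace Pool.Agent.Q43.FS

open Module Matrix TensorProduct Pool.Agent.H204R3.CM Pool.Agent.H204R3.SP Pool.Agent.H204R3.GP
  Pool.Agent.W516.MTD Pool.Agent.W516.FT Pool.Agent.Q43.HL Pool.Agent.TH776.FM

noncomputable section

section unif

variable {R : Type} [Fintype R] [DecidableEq R] (v : R → ℂˣ) (c : ℂˣ)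

/-- The value of a monomial. -/
def mono (s : (R → ℤ) × ℤ) : ℂˣ := (∏ x, v x ^ s.1 x) * c ^ s.2

theorem mono_zero : mono v c 0 = 1 := by
  unfold mono
  simp

theorem mono_add (s t : (R → ℤ) × ℤ) : mono v c (s + t) = mono v c s * mono v c t := by
  unfold mono
  rw [Prod.snd_add, _root_.zpow_add, Prod.fst_add]
  have h1 : ∏ x, v x ^ (s.1 + t.1) x = (∏ x, v x ^ s.1 x) * ∏ x, v x ^ t.1 x := by
    rw [← Finset.prod_mul_distrib]
    exact Finset.prod_congr rfl fun x _ => by rw [Pi.add_apply, _root_.zpow_add]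
  rw [h1]
  exact mul_mul_mul_comm _ _ _ _

theorem mono_smul (n : ℤ) (s : (R → ℤ) × ℤ) : mono v c (n • s) = mono v c s ^ n := by
  unfold mono
  rw [_root_.mul_zpow, ← Finset.prod_zpow, Prod.smul_snd, Prod.smul_fst, smul_eq_mul, mul_comm n, _root_.zpow_mul]
  congr 1
  exact Finset.prod_congr rfl fun x _ => by rw [Pi.smul_apply, smul_eq_mul, mul_comm, _root_.zpow_mul]

/-- A uniform exponent. -/
theorem exists_uniform (S : Set ((R → ℤ) × ℤ))
    (h : ∀ s ∈ S, ∃ N : ℕ, 0 < N ∧ mono v c s ^ N = 1) :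
    ∃ N : ℕ, 0 < N ∧ ∀ s ∈ S, mono v c s ^ N = 1 := by
  classical
  let W : Submodule ℤ ((R → ℤ) × ℤ) :=
    { carrier := {s | ∃ N : ℕ, 0 < N ∧ mono v c s ^ N = 1}
      zero_mem' := ⟨1, one_pos, by rw [mono_zero, one_pow]⟩
      add_mem' := by
        rintro s t ⟨N, hN, h1⟩ ⟨M, hM, h2⟩
        refine ⟨N * M, Nat.mul_pos hN hM, ?_⟩
        rw [mono_add, mul_pow, pow_mul, h1, one_pow, mul_comm N M, pow_mul, h2, one_pow, one_mul]
      smul_mem' := by
        rintro n s ⟨N, hN, h1⟩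
        refine ⟨N, hN, ?_⟩
        rw [mono_smul, ← zpow_natCast, ← _root_.zpow_mul, mul_comm, _root_.zpow_mul, zpow_natCast, h1, _root_.one_zpow] }
  have hS : Submodule.span ℤ S ≤ W := Submodule.span_le.2 h
  obtain ⟨t, ht⟩ := (IsNoetherian.noetherian (Submodule.span ℤ S) : (Submodule.span ℤ S).FG)
  have h1 : ∀ s : t, ∃ N : ℕ, 0 < N ∧ mono v c s.1 ^ N = 1 := fun s => hS (by
    rw [← ht]
    exact Submodule.subset_span s.2)
  choose N hN hN1 using h1
  refine ⟨∏ s : t, N s, Finset.prod_pos fun s _ => hN s, fun s hs => ?_⟩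
  have h2 : s ∈ Submodule.span ℤ (t : Set ((R → ℤ) × ℤ)) := by
    rw [ht]
    exact Submodule.subset_span hs
  refine Submodule.span_induction (p := fun s _ => mono v c s ^ (∏ s : t, N s) = 1)
    ?_ ?_ ?_ ?_ h2
  · intro x hx
    obtain ⟨r, hr⟩ := Finset.dvd_prod_of_mem N (Finset.mem_univ (⟨x, hx⟩ : t))
    rw [hr, pow_mul, hN1 ⟨x, hx⟩, one_pow]
  · rw [mono_zero, one_pow]
  · intro x y _ _ hx hy
    rw [mono_add, mul_pow, hx, hy, one_mul]
  · intro n x _ hx
    rw [mono_smul, ← zpow_natCast, ← _root_.zpow_mul, mul_comm, _root_.zpow_mul, zpow_natCast, hx, _root_.one_zpow]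

/-- The product over the letters of a word. -/
theorem prod_word {κ : Type} [Fintype κ] (I : κ → R) :
    ∏ x, v x ^ (((Finset.univ.filter (fun l => I l = x)).card : ℕ) : ℤ) = ∏ l, v (I l) := by
  rw [← Finset.prod_fiberwise Finset.univ I (fun l => v (I l))]
  refine Finset.prod_congr rfl fun x _ => ?_
  rw [Finset.prod_congr rfl (g := fun _ => v x) (fun l hl => by
    rw [(Finset.mem_filter.1 hl).2]), Finset.prod_const, zpow_natCast]

end unif

section ext

variable {k : Type} [Field k] [CharZero k] (j : k →+* ℂ) {n : ℕ} {H : Type} [AddCommGroup H]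
  [Module ℚ H] (b : Basis (Fin n) ℚ H)

/-- The complex coordinates of a vector. -/
def ck (w : k ⊗[ℚ] H) : Fin n → ℂ := fun i => j ((b.baseChange k).repr w i)

theorem ck_basis (i : Fin n) : ck j b ((b.baseChange k) i) = Pi.single i 1 := by
  funext l
  unfold ck
  rw [Basis.repr_self]
  by_cases h : l = i
  · subst h
    rw [Finsupp.single_eq_same, Pi.single_eq_same, map_one]
  · rw [Finsupp.single_eq_of_ne h, Pi.single_eq_of_ne h, map_zero]

/-- The extension of a rational form. -/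
def exk {κ : Type} [Fintype κ] [DecidableEq κ] (ψ : MultilinearMap ℚ (fun _ : κ => H) ℚ) :
    MultilinearMap k (fun _ : κ => k ⊗[ℚ] H) k :=
  ∑ I : κ → Fin n, ((ψ (fun l => b (I l)) : ℚ) : k) •
    (MultilinearMap.mkPiAlgebra k κ k).compLinearMap (fun l => (b.baseChange k).coord (I l))

theorem exk_apply {κ : Type} [Fintype κ] [DecidableEq κ]
    (ψ : MultilinearMap ℚ (fun _ : κ => H) ℚ) (w : κ → k ⊗[ℚ] H) :
    exk b ψ w = ∑ I : κ → Fin n, ((ψ (fun l => b (I l)) : ℚ) : k) *
      ∏ l, (b.baseChange k).repr (w l) (I l) := by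
  unfold exk
  rw [_root_.sum_apply]
  rfl

theorem j_exk {κ : Type} [Fintype κ] [DecidableEq κ]
    (ψ : MultilinearMap ℚ (fun _ : κ => H) ℚ) (w : κ → k ⊗[ℚ] H) :
    j (exk b ψ w) = ex b ψ (fun l => ck j b (w l)) := by
  rw [exk_apply, apply_eq, map_sum]
  refine Finset.sum_congr rfl fun I _ => ?_
  rw [map_mul, map_ratCast, map_prod, cf_ex]
  rfl

theorem exk_one {κ : Type} [Fintype κ] [DecidableEq κ]
    (ψ : MultilinearMap ℚ (fun _ : κ => H) ℚ) (v : κ → H) :
    exk b ψ (fun l => (1 : k) ⊗ₜ[ℚ] v l) = ((ψ v : ℚ) : k) := by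
  have h1 : v = fun l => ∑ i, b.repr (v l) i • b i := funext fun l => (b.sum_repr (v l)).symm
  conv_rhs => rw [h1, MultilinearMap.map_sum]
  rw [exk_apply, Rat.cast_sum]
  refine Finset.sum_congr rfl fun I _ => ?_
  rw [MultilinearMap.map_smul_univ, smul_eq_mul, Rat.cast_mul, Rat.cast_prod, mul_comm]
  congr 1
  refine Finset.prod_congr rfl fun l _ => ?_
  rw [Basis.baseChange_repr_tmul]
  rw [Rat.smul_def, mul_one]

/-- The complex matrix of an endomorphism. -/
def mk (f : Module.End k (k ⊗[ℚ] H)) : Matrix (Fin n) (Fin n) ℂ :=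
  (LinearMap.toMatrix (b.baseChange k) (b.baseChange k) f).map j

theorem mk_mulVec (f : Module.End k (k ⊗[ℚ] H)) (w : k ⊗[ℚ] H) :
    mk j b f *ᵥ ck j b w = ck j b (f w) := by
  funext i
  change ∑ l, j (LinearMap.toMatrix (b.baseChange k) (b.baseChange k) f i l) *
    j ((b.baseChange k).repr w l) = j ((b.baseChange k).repr (f w) i)
  rw [← LinearMap.toMatrix_mulVec_repr (b.baseChange k) (b.baseChange k) f w]
  change _ = j (∑ l : Fin n, LinearMap.toMatrix (b.baseChange k) (b.baseChange k) f i l *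
    (b.baseChange k).repr w l)
  rw [map_sum]
  exact Finset.sum_congr rfl fun l _ => (map_mul j _ _).symm

theorem mk_mul (f f' : Module.End k (k ⊗[ℚ] H)) : mk j b (f * f') = mk j b f * mk j b f' := by
  unfold mk
  rw [LinearMap.toMatrix_mul, Matrix.map_mul]

theorem mk_one : mk j b (1 : Module.End k (k ⊗[ℚ] H)) = 1 := by
  unfold mk
  rw [LinearMap.toMatrix_one, Matrix.map_one _ (map_zero j) (map_one j)]

theorem mk_pow (f : Module.End k (k ⊗[ℚ] H)) (N : ℕ) : mk j b (f ^ N) = mk j b f ^ N := by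
  induction N with
  | zero => rw [pow_zero, pow_zero, mk_one]
  | succ N ih => rw [pow_succ, pow_succ, mk_mul, ih]

theorem mk_charpoly [FiniteDimensional ℚ H] (f : Module.End k (k ⊗[ℚ] H)) :
    (mk j b f).mulVecLin.charpoly = f.charpoly.map j := by
  have h1 := Matrix.charpoly_toLin' (mk j b f)
  have h2 : Matrix.toLin' (mk j b f) = (mk j b f).mulVecLin := Matrix.toLin'_apply' _
  rw [← h2, h1]
  unfold mk
  rw [Matrix.charpoly_map, LinearMap.charpoly_toMatrix]

/-- Tate forms and complex matrices. -/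
theorem transport {κ : Type} [Fintype κ] [DecidableEq κ]
    {ψ : MultilinearMap ℚ (fun _ : κ => H) ℚ} {f : Module.End k (k ⊗[ℚ] H)} {c : k}
    (h : ∀ w : κ → k ⊗[ℚ] H, exk b ψ (fun l => f (w l)) = c * exk b ψ w) (w : κ → Fin n → ℂ) :
    ex b ψ (fun l => mk j b f *ᵥ w l) = j c * ex b ψ w := by
  let F : Frm κ (Fin n) := (ex b ψ).compLinearMap (fun _ => (mk j b f).mulVecLin)
  have hF : F = j c • ex b ψ := by
    refine ext_cf fun I => ?_
    change ex b ψ (fun l => mk j b f *ᵥ Pi.single (I l) 1) =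
      j c * ex b ψ (fun l => Pi.single (I l) 1)
    have h1 : (fun l => mk j b f *ᵥ Pi.single (I l) (1 : ℂ)) =
        fun l => ck j b (f ((b.baseChange k) (I l))) := by
      funext l
      rw [← ck_basis j b, mk_mulVec]
    have h2 : (fun l => (Pi.single (I l) (1 : ℂ) : Fin n → ℂ)) =
        fun l => ck j b ((b.baseChange k) (I l)) := funext fun l => (ck_basis j b (I l)).symm
    rw [h1, h2, ← j_exk, ← j_exk, h, map_mul]
  exact congrArg (fun g : Frm κ (Fin n) => g w) hF

end ext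

end

end Pool.Agent.Q43.FS
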